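import Mathlib

set_option autoImplicit false

/-!
# Packing paths into graphs of large average degree: definitions and statements

An element `(l, c)` is a path (`c = false`) or a cycle (`c = true`) given by the list of its
vertices. A graph is a finite set `E` of non-loops of `Sym2 ℕ`; a decomposition of `E` is a multiset
`L` of elements with `L.bind el = E.val`.
-/

namespace Pool.Agent.Lib.MP_d51747_co.Paths

/-- Edges between consecutive vertices of a list. -/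
def pe : List ℕ → Multiset (Sym2 ℕ)
  | [] => 0
  | [_] => 0
  | a :: b :: l => s(a, b) ::ₘ pe (b :: l)

/-- Edges of an element (path, or cycle if the flag is `true`). -/
def el (x : List ℕ × Bool) : Multiset (Sym2 ℕ) :=
  pe (x.1 ++ if x.2 then x.1.take 1 else [])

/-- Validity of an element. -/
def Ok (x : List ℕ × Bool) : Prop :=
  x.1.Nodup ∧ 2 ≤ x.1.length ∧ (x.2 = true → 3 ≤ x.1.length)

/-- `L` decomposes the multiset of edges `M`. -/
def Dec (L : Multiset (List ℕ × Bool)) (M : Multiset (Sym2 ℕ)) : Prop :=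
  (∀ x ∈ L, Ok x) ∧ L.bind el = M

/-- The path list `p` is an element of `L`, in one of its two directions. -/
def MemR (L : Multiset (List ℕ × Bool)) (p : List ℕ) : Prop :=
  (p, false) ∈ L ∨ (p.reverse, false) ∈ L

/-- `v` is an end of some path of `L`. -/
def End (L : Multiset (List ℕ × Bool)) (v : ℕ) : Prop :=
  ∃ p : List ℕ, MemR L (v :: p)

/-- Degree of `v`. -/
def dg (M : Multiset (Sym2 ℕ)) (v : ℕ) : ℕ := M.countP (fun e => v ∈ e)

/-- Switching lemma: all missing edges `a x`, `x ∈ X`, can be added at once. -/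
def StSwitch : Prop :=
  ∀ (E : Finset (Sym2 ℕ)) (a : ℕ) (X : Finset ℕ) (L : Multiset (List ℕ × Bool)),
    (∀ e ∈ E, ¬ e.IsDiag) →
    (∀ x ∈ L, Ok x) → L.bind el + X.val.map (fun x => s(a, x)) = E.val →
    (∀ v, s(a, v) ∈ E → End L v) →
    ∃ L' : Multiset (List ℕ × Bool), Multiset.card L' = Multiset.card L ∧ Dec L' E.val

/-- Vertices of odd degree are ends. -/
def StEnd : Prop :=
  ∀ (L : Multiset (List ℕ × Bool)) (M : Multiset (Sym2 ℕ)) (v : ℕ),
    Dec L M → Odd (dg M v) → End L v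

/-- If all vertices of `S` are odd and there are at most `|S| / 2` elements, all are paths. -/
def StAllPaths : Prop :=
  ∀ (L : Multiset (List ℕ × Bool)) (M : Multiset (Sym2 ℕ)) (S : Finset ℕ),
    Dec L M → (∀ v ∈ S, Odd (dg M v)) → 2 * Multiset.card L ≤ S.card →
    ∀ x ∈ L, x.2 = false

/-- Handshake lemma. -/
def StHand : Prop :=
  ∀ (E : Finset (Sym2 ℕ)) (S : Finset ℕ), (∀ e ∈ E, ¬ e.IsDiag) → (∀ e ∈ E, ∀ v ∈ e, v ∈ S) →
    ∑ v ∈ S, dg E.val v = 2 * E.card ∧ Even (S.filter fun v => Odd (dg E.val v)).card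

/-- Lovász: a graph on the vertex set `S` decomposes into at most `|S| / 2` paths and cycles. -/
def StLov : Prop :=
  ∀ (E : Finset (Sym2 ℕ)) (S : Finset ℕ), (∀ e ∈ E, ¬ e.IsDiag) → (∀ e ∈ E, ∀ v ∈ e, v ∈ S) →
    ∃ L : Multiset (List ℕ × Bool), Dec L E.val ∧ 2 * Multiset.card L ≤ S.card

/-- If all neighbours of some `a ∈ S` are even, `(|S| - 1) / 2` elements suffice. -/
def StLov2 : Prop :=
  ∀ (E : Finset (Sym2 ℕ)) (S : Finset ℕ) (a : ℕ), (∀ e ∈ E, ¬ e.IsDiag) →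
    (∀ e ∈ E, ∀ v ∈ e, v ∈ S) → a ∈ S → (∀ v, s(a, v) ∈ E → Even (dg E.val v)) →
    ∃ L : Multiset (List ℕ × Bool), Dec L E.val ∧ 2 * Multiset.card L + 1 ≤ S.card

/-- If some vertex is even, at most `h - 1` edges can be removed (`|S| = 2h`) such that all
neighbours of some vertex become even. -/
def StMatch : Prop :=
  ∀ (E : Finset (Sym2 ℕ)) (S : Finset ℕ) (h : ℕ), (∀ e ∈ E, ¬ e.IsDiag) →
    (∀ e ∈ E, ∀ v ∈ e, v ∈ S) → S.card = 2 * h → (∃ v ∈ S, Even (dg E.val v)) →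
    ∃ a ∈ S, ∃ F ⊆ E, F.card + 1 ≤ h ∧
      ∀ v, s(a, v) ∈ E \ F → Even (dg (E \ F).val v)

/-! ### Bins -/

/-- A multiset of lengths fits into a bin `(size, cycle?)`; a cycle does not contain a path with as
many edges. -/
def Fits (b : ℕ × Bool) (m : Multiset ℕ) : Prop := m.sum ≤ b.1 ∧ (b.2 = true → m ≠ {b.1})

/-- The items `I` can be packed into the bins `B`. -/
def Packed (B : Multiset (ℕ × Bool)) (I : Multiset ℕ) : Prop :=
  ∃ P : Multiset ((ℕ × Bool) × Multiset ℕ), P.map Prod.fst = B ∧ (P.map Prod.snd).sum = I ∧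
    ∀ p ∈ P, Fits p.1 p.2

/-- Final packing: `M` distinct items (`0` does not count) into `M - 1` bins. -/
def FinalOk (s h M C : ℕ) : Prop :=
  ∀ (B : Multiset (ℕ × Bool)) (T : Finset ℕ), Multiset.card B + 1 = M → T.card = M →
    T ⊆ Finset.Icc s h → (s = 0 → ∀ b ∈ B, b.2 = false) → (∀ b ∈ B, b.1 ≤ 2 * h + 1) →
    (∑ t ∈ T, t) + (B.map fun b => 2 * h + 1 - b.1).sum ≤ C →
    Packed B (T.erase 0).val

/-- The two instances of the final packing. -/
def StFinal : Prop :=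
  (∀ h M : ℕ, 2 ≤ M → FinalOk 0 h M (M * (M - 1) / 2 + M * h + (M - 1) / 2)) ∧
  (∀ h M : ℕ, 2 ≤ M → FinalOk 1 h M (M * (M + 1) / 2 + M * h - 2))

/-- The LIFO assignment reduces the packing of `1, …, 2h - E` to the final packing. -/
def StLifo : Prop :=
  ∀ (s h E C : ℕ) (B : Multiset (ℕ × Bool)), s ≤ 1 → s ≤ E → 1 ≤ E → E ≤ h →
    FinalOk s h (E + 1 - s) C →
    2 * C < 2 * (E + 1 - s) * h + (E + 1 - s) * (E + 2 - s) →
    Multiset.card B + s = h → (s = 0 → ∀ b ∈ B, b.2 = false) → (∀ b ∈ B, b.1 ≤ 2 * h + 1) →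
    (∑ t ∈ Finset.Icc s E, t) + (B.map fun b => 2 * h + 1 - b.1).sum ≤ C →
    Packed B (Finset.Icc 1 (2 * h - E)).val

/-- Cutting an element into paths of given lengths. -/
def StCut : Prop :=
  ∀ (x : List ℕ × Bool) (m : Multiset ℕ), Ok x → 0 ∉ m → Fits (Multiset.card (el x), x.2) m →
    ∃ Q : Multiset (List ℕ), (∀ l ∈ Q, l.Nodup) ∧ Q.map List.length = m.map (· + 1) ∧
      Q.bind pe ≤ el x

/-! ### Graphs -/

/-- Paths of all lengths `1, …, q` pack (as lists). -/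
def StLists : Prop :=
  ∀ (E : Finset (Sym2 ℕ)) (S : Finset ℕ) (q : ℕ), (∀ e ∈ E, ¬ e.IsDiag) →
    (∀ e ∈ E, ∀ v ∈ e, v ∈ S) → 0 < S.card → q * S.card ≤ 2 * E.card → S.card ≤ 2 * q + 1 →
    1 ≤ q →
    ∃ p : ℕ → List ℕ, (∀ i, 1 ≤ i → i ≤ q → (p i).Nodup ∧ (p i).length = i + 1 ∧
        ∀ e ∈ pe (p i), e ∈ E) ∧
      ∀ i j, 1 ≤ i → i ≤ q → 1 ≤ j → j ≤ q → i ≠ j → Disjoint (pe (p i)) (pe (p j))

/-- General greedy packing of trees `T_2, …, T_s` (by the Erdős–Sós theorem). -/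
def StGreedy : Prop :=
  ∀ (n s : ℕ), 0 < n →
    ∀ (T : (i : ℕ) → SimpleGraph (Fin i)), (∀ i, 2 ≤ i → i ≤ s → (T i).IsTree) →
    ∀ (G : SimpleGraph (Fin n)),
      (∀ j, j + 2 ≤ s → (s - j - 2) * n + j * (2 * s - j - 1) < 2 * G.edgeSet.ncard) →
    ∃ f : (i : ℕ) → Fin i → Fin n,
      (∀ i, 2 ≤ i → i ≤ s → Function.Injective (f i) ∧
        ∀ a b : Fin i, (T i).Adj a b → G.Adj (f i a) (f i b)) ∧
      (∀ i j, 2 ≤ i → i ≤ s → 2 ≤ j → j ≤ s → i ≠ j →
        ∀ (a b : Fin i) (c d : Fin j), (T i).Adj a b → (T j).Adj c d →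
          s(f i a, f i b) ≠ s(f j c, f j d))

end Pool.Agent.Lib.MP_d51747_co.Paths
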