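import Mathlib
import Pool.Agent.Lib.MP_d51747_co.Paths.Stmts

set_option autoImplicit false

/-!
# Basic lemmas on the edges of a list
-/

namespace Pool.Agent.Lib.MP_d51747_co.Paths

@[simp] lemma pe_nil : pe [] = 0 := rfl

@[simp] lemma pe_single (a : ℕ) : pe [a] = 0 := rfl

@[simp] lemma pe_cons_cons (a b : ℕ) (l : List ℕ) :
    pe (a :: b :: l) = s(a, b) ::ₘ pe (b :: l) := rfl

lemma pe_append_cons (l : List ℕ) (a : ℕ) (r : List ℕ) :
    pe (l ++ a :: r) = pe (l ++ [a]) + pe (a :: r) := by
  induction l with
  | nil => simp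
  | cons b l ih =>
    cases l with
    | nil => simp
    | cons c l =>
      simp only [List.cons_append, pe_cons_cons, Multiset.cons_add] at ih ⊢
      rw [ih]

lemma pe_concat (l : List ℕ) (b a : ℕ) : pe (l ++ [b, a]) = s(b, a) ::ₘ pe (l ++ [b]) := by
  rw [pe_append_cons l b [a]]
  simp only [pe_cons_cons, pe_single]
  rw [add_comm]
  simp

lemma pe_reverse (l : List ℕ) : pe l.reverse = pe l := by
  induction l with
  | nil => rfl
  | cons a l ih =>
    cases l with
    | nil => rfl
    | cons b l =>
      rw [List.reverse_cons, List.reverse_cons, List.append_assoc, pe_cons_cons, ← ih,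
        List.reverse_cons]
      show pe (l.reverse ++ [b, a]) = _
      rw [pe_concat, Sym2.eq_swap]

lemma card_pe (l : List ℕ) : Multiset.card (pe l) = l.length - 1 := by
  induction l with
  | nil => rfl
  | cons a l ih =>
    cases l with
    | nil => rfl
    | cons b l => simp only [pe_cons_cons, Multiset.card_cons, ih, List.length_cons]; omega

lemma mem_of_mem_pe {l : List ℕ} {e : Sym2 ℕ} (he : e ∈ pe l) {v : ℕ} (hv : v ∈ e) : v ∈ l := by
  induction l with
  | nil => simp at he
  | cons a l ih =>
    cases l with
    | nil => simp at he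
    | cons b l =>
      rw [pe_cons_cons, Multiset.mem_cons] at he
      rcases he with rfl | he
      · rw [Sym2.mem_iff] at hv
        rcases hv with rfl | rfl <;> simp
      · exact List.mem_cons_of_mem _ (ih he)

lemma nodup_pe {l : List ℕ} (hl : l.Nodup) : (pe l).Nodup := by
  induction l with
  | nil => simp
  | cons a l ih =>
    cases l with
    | nil => simp
    | cons b l =>
      rw [pe_cons_cons, Multiset.nodup_cons]
      refine ⟨fun h => ?_, ih (List.nodup_cons.1 hl).2⟩
      exact (List.nodup_cons.1 hl).1 (mem_of_mem_pe h (Sym2.mem_mk_left a b))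

@[simp] lemma el_false (l : List ℕ) : el (l, false) = pe l := by simp [el]

lemma el_true (a : ℕ) (l : List ℕ) : el (a :: l, true) = pe (a :: l ++ [a]) := by simp [el]

lemma card_el_false (l : List ℕ) : Multiset.card (el (l, false)) = l.length - 1 := by
  rw [el_false, card_pe]

lemma card_el_true (l : List ℕ) : Multiset.card (el (l, true)) = l.length := by
  cases l with
  | nil => rfl
  | cons a l => rw [el_true, card_pe]; simp

/-- Splitting a list at position `j`. -/
lemma pe_take_drop (w : List ℕ) (j : ℕ) (hj : j + 1 ≤ w.length) :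
    pe (w.take (j + 1)) + pe (w.drop j) = pe w := by
  have h1 : w.drop j = w[j] :: w.drop (j + 1) := by
    rw [List.drop_eq_getElem_cons (by omega)]
  have h2 : w.take (j + 1) = w.take j ++ [w[j]] := by
    rw [List.take_succ_eq_append_getElem (by omega)]
  rw [h1, h2, ← pe_append_cons, ← h1, List.take_append_drop]

lemma mem_bind_of_memR {L : Multiset (List ℕ × Bool)} {p : List ℕ} (h : MemR L p) {e : Sym2 ℕ}
    (he : e ∈ pe p) : e ∈ L.bind el := by
  rw [Multiset.mem_bind]
  rcases h with h | h
  · exact ⟨_, h, by simpa using he⟩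
  · exact ⟨_, h, by simpa [pe_reverse] using he⟩

end Pool.Agent.Lib.MP_d51747_co.Paths
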