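import Mathlib
import Pool.Agent.Lib.MP_d51747_co.Paths.Stmts
import Pool.Agent.Lib.MP_d51747_co.Paths.Basic

set_option autoImplicit false

/-!
# Cutting a path or a cycle into paths of given lengths
-/

namespace Pool.Agent.Lib.MP_d51747_co.Paths

namespace Cut

/-- A duplicate-free list with at least `m.sum` edges is cut into paths with `m` edges. -/
lemma path_cut (m : Multiset ℕ) : 0 ∉ m → ∀ w : List ℕ, w.Nodup → m.sum ≤ w.length - 1 →
    ∃ Q : Multiset (List ℕ), (∀ l ∈ Q, l.Nodup) ∧ Q.map List.length = m.map (· + 1) ∧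
      Q.bind pe ≤ pe w := by
  induction m using Multiset.induction with
  | empty =>
    intro _ w _ _
    exact ⟨0, by simp, by simp, by simp⟩
  | cons a m ih =>
    intro hm w hw h
    have ha : 1 ≤ a := Nat.one_le_iff_ne_zero.mpr (fun h => hm (by simp [h]))
    rw [Multiset.sum_cons] at h
    have hlen : a + 1 ≤ w.length := by omega
    obtain ⟨Q, hQ1, hQ2, hQ3⟩ := ih (fun h => hm (Multiset.mem_cons_of_mem h)) (w.drop a)
      (hw.sublist (List.drop_sublist _ _)) (by rw [List.length_drop]; omega)
    refine ⟨w.take (a + 1) ::ₘ Q, ?_, ?_, ?_⟩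
    · intro l hl
      rcases Multiset.mem_cons.1 hl with rfl | hl
      · exact hw.sublist (List.take_sublist _ _)
      · exact hQ1 l hl
    · rw [Multiset.map_cons, Multiset.map_cons, hQ2, List.length_take, Nat.min_eq_left hlen]
    · rw [Multiset.cons_bind, ← pe_take_drop w a hlen]
      exact add_le_add le_rfl hQ3

/-- Two consecutive pieces of a closed walk. -/
lemma closed_cut (a : ℕ) (l : List ℕ) (hl : (a :: l).Nodup) (m : Multiset ℕ) (hm : 0 ∉ m)
    (hsum : m.sum = l.length + 1) (hne : m ≠ {l.length + 1}) :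
    ∃ Q : Multiset (List ℕ), (∀ l ∈ Q, l.Nodup) ∧ Q.map List.length = m.map (· + 1) ∧
      Q.bind pe ≤ pe (a :: l ++ [a]) := by
  have hm0 : m ≠ 0 := by
    rintro rfl
    simp at hsum
  obtain ⟨b, m', rfl⟩ : ∃ b m', m = b ::ₘ m' := by
    obtain ⟨b, hb⟩ := Multiset.exists_mem_of_ne_zero hm0
    exact ⟨b, m.erase b, (Multiset.cons_erase hb).symm⟩
  have hb : 1 ≤ b := Nat.one_le_iff_ne_zero.mpr (fun h => hm (by simp [h]))
  have hm' : 0 ∉ m' := fun h => hm (Multiset.mem_cons_of_mem h)
  rw [Multiset.sum_cons] at hsum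
  have hs : 1 ≤ m'.sum := by
    by_contra hcon
    have h0 : m'.sum = 0 := by omega
    have hm0' : m' = 0 := by
      by_contra hne'
      obtain ⟨c, hc⟩ := Multiset.exists_mem_of_ne_zero hne'
      have : c = 0 := by
        have := Multiset.single_le_sum (fun x _ => Nat.zero_le x) c hc
        omega
      exact hm' (this ▸ hc)
    subst hm0'
    apply hne
    simp at hsum
    rw [hsum]
    rfl
  have hbl : b + 1 ≤ l.length + 1 := by omega
  -- the drop list
  have hdrop : ((a :: l ++ [a]).drop b).Nodup := by
    obtain ⟨b', rfl⟩ : ∃ b', b = b' + 1 := ⟨b - 1, by omega⟩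
    rw [List.cons_append, List.drop_succ_cons]
    have hnd : (l ++ [a]).Nodup := by
      rw [List.nodup_append_comm]
      exact hl
    exact hnd.sublist (List.drop_sublist _ _)
  obtain ⟨Q, hQ1, hQ2, hQ3⟩ := path_cut m' hm' ((a :: l ++ [a]).drop b) hdrop (by
    rw [List.length_drop]
    simp only [List.cons_append, List.length_cons, List.length_append, List.length_nil]
    omega)
  have hlen : b + 1 ≤ (a :: l ++ [a]).length := by
    simp only [List.cons_append, List.length_cons, List.length_append, List.length_nil]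
    omega
  refine ⟨(a :: l ++ [a]).take (b + 1) ::ₘ Q, ?_, ?_, ?_⟩
  · intro k hk
    rcases Multiset.mem_cons.1 hk with rfl | hk
    · rw [List.take_append_of_le_length (by simpa using hbl)]
      exact hl.sublist (List.take_sublist _ _)
    · exact hQ1 k hk
  · rw [Multiset.map_cons, Multiset.map_cons, hQ2, List.length_take, Nat.min_eq_left hlen]
  · rw [Multiset.cons_bind, ← pe_take_drop (a :: l ++ [a]) b hlen]
    exact add_le_add le_rfl hQ3

end Cut

/-- Cutting an element into paths of given lengths. -/
theorem stCut : StCut := by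
  rintro ⟨w, c⟩ m ⟨hnd, hlen, hcyc⟩ hm ⟨hsum, hne⟩
  simp only at hnd hlen hcyc hsum hne
  cases c with
  | false =>
    rw [card_el_false] at hsum
    rw [el_false]
    exact Cut.path_cut m hm w hnd hsum
  | true =>
    rw [card_el_true] at hsum hne
    cases w with
    | nil => simp at hlen
    | cons a l =>
      rw [el_true]
      rw [List.length_cons] at hsum hne
      by_cases hlt : m.sum ≤ l.length
      · obtain ⟨Q, hQ1, hQ2, hQ3⟩ := Cut.path_cut m hm (a :: l) hnd (by simpa using hlt)
        refine ⟨Q, hQ1, hQ2, hQ3.trans ?_⟩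
        have h := pe_take_drop (a :: l ++ [a]) l.length (by simp)
        have h2 : (a :: l ++ [a]).take (l.length + 1) = a :: l := by
          rw [List.take_append_of_le_length (by simp)]
          simp
        rw [h2] at h
        rw [← h]
        exact Multiset.le_add_right _ _
      · exact Cut.closed_cut a l hnd m hm (by omega) (hne rfl)

end Pool.Agent.Lib.MP_d51747_co.Paths
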