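import Mathlib
import Pool.Agent.Lib.MP_d51747_co.Paths.Basic

set_option autoImplicit false

/-!
# Ends of paths and degrees
-/

namespace Pool.Agent.Lib.MP_d51747_co.Paths.Ends

open Pool.Agent.Lib.MP_d51747_co.Paths

lemma dg_zero (v : ℕ) : dg 0 v = 0 := by simp [dg]

lemma dg_cons (e : Sym2 ℕ) (M : Multiset (Sym2 ℕ)) (v : ℕ) :
    dg (e ::ₘ M) v = dg M v + (if v ∈ e then 1 else 0) := by
  unfold dg
  rw [Multiset.countP_cons]

lemma dg_add (M N : Multiset (Sym2 ℕ)) (v : ℕ) : dg (M + N) v = dg M v + dg N v := by
  unfold dg
  rw [Multiset.countP_add]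

lemma dg_bind (L : Multiset (List ℕ × Bool)) (v : ℕ) :
    dg (L.bind el) v = (L.map fun x => dg (el x) v).sum := by
  induction L using Multiset.induction_on with
  | empty => simp [dg]
  | cons x L ih => rw [Multiset.cons_bind, dg_add, ih, Multiset.map_cons, Multiset.sum_cons]

lemma dg_pe (v : ℕ) : ∀ l : List ℕ, l.Nodup → l ≠ [] →
    dg (pe l) v + (if l.head? = some v then 1 else 0) + (if l.getLast? = some v then 1 else 0) =
      if v ∈ l then 2 else 0
  | [], _, h => absurd rfl h
  | [a], _, _ => by
    by_cases h : a = v
    · subst h; simp [dg]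
    · simp [dg, h, Ne.symm h]
  | a :: b :: l, hl, _ => by
    have ih := dg_pe v (b :: l) (List.nodup_cons.1 hl).2 (by simp)
    have hab : a ∉ b :: l := (List.nodup_cons.1 hl).1
    have hlast : (a :: b :: l).getLast? = (b :: l).getLast? := by
      simp [List.getLast?_cons_cons]
    rw [pe_cons_cons, dg_cons, hlast]
    have hh1 : (a :: b :: l).head? = some a := rfl
    have hh2 : (b :: l).head? = some b := rfl
    rw [hh2] at ih
    rw [hh1]
    by_cases h1 : v = a
    · subst h1
      have hb : v ≠ b := fun h => hab (by simp [h])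
      have hb' : ¬ (some b = some v) := fun h => hb (Option.some.inj h).symm
      rw [if_neg hb', if_neg hab] at ih
      rw [if_pos (Sym2.mem_mk_left _ _), if_pos rfl, if_pos List.mem_cons_self]
      omega
    · have ha' : ¬ (some a = some v) := fun h => h1 (Option.some.inj h).symm
      have hm : (v ∈ a :: b :: l) ↔ v ∈ b :: l := by
        rw [List.mem_cons]; exact ⟨fun h => h.resolve_left h1, Or.inr⟩
      rw [if_neg ha']
      by_cases h2 : v = b
      · subst h2
        rw [if_pos rfl, if_pos List.mem_cons_self] at ih
        rw [if_pos (Sym2.mem_mk_right _ _), if_pos (hm.2 List.mem_cons_self)]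
        omega
      · have hb' : ¬ (some b = some v) := fun h => h2 (Option.some.inj h).symm
        have he : ¬ (v ∈ s(a, b)) := by
          rw [Sym2.mem_iff]; rintro (h | h)
          · exact h1 h
          · exact h2 h
        rw [if_neg hb'] at ih
        rw [if_neg he]
        by_cases h3 : v ∈ b :: l
        · rw [if_pos h3] at ih; rw [if_pos (hm.2 h3)]; omega
        · rw [if_neg h3] at ih; rw [if_neg (fun h => h3 (hm.1 h))]; omega

/-- All degrees of a cycle are even. -/
lemma even_cycle (v : ℕ) (l : List ℕ) (hl : l.Nodup) (h2 : 2 ≤ l.length) :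
    Even (dg (el (l, true)) v) := by
  have hne : l ≠ [] := by rintro rfl; simp at h2
  have hd := dg_pe v l hl hne
  obtain ⟨a, t, rfl⟩ := List.exists_cons_of_ne_nil hne
  have htne : t ≠ [] := by rintro rfl; simp at h2
  obtain ⟨t', c, rfl⟩ : ∃ t' c, t = t' ++ [c] := ⟨t.dropLast, t.getLast htne,
    (List.dropLast_append_getLast htne).symm⟩
  have hac : a ≠ c := by
    intro h
    exact (List.nodup_cons.1 hl).1 (by simp [h])
  rw [el_true]
  have e1 : a :: (t' ++ [c]) ++ [a] = (a :: t') ++ [c, a] := by simp
  have e2 : a :: (t' ++ [c]) = (a :: t') ++ [c] := by simp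
  have hlast : (a :: (t' ++ [c])).getLast? = some c := by
    rw [e2, List.getLast?_append]; simp
  have hhead : (a :: (t' ++ [c])).head? = some a := rfl
  rw [hlast, hhead] at hd
  rw [e1, pe_concat, dg_cons, ← e2]
  by_cases h1 : v = a
  · subst h1
    have hc' : ¬ (some c = some v) := fun h => hac (Option.some.inj h).symm
    rw [if_pos rfl, if_neg hc', if_pos List.mem_cons_self] at hd
    rw [if_pos (Sym2.mem_mk_right _ _)]
    exact ⟨1, by omega⟩
  · have ha' : ¬ (some a = some v) := fun h => h1 (Option.some.inj h).symm
    rw [if_neg ha'] at hd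
    by_cases h2 : v = c
    · subst h2
      rw [if_pos rfl, if_pos (by simp)] at hd
      rw [if_pos (Sym2.mem_mk_left _ _)]
      exact ⟨1, by omega⟩
    · have hc' : ¬ (some c = some v) := fun h => h2 (Option.some.inj h).symm
      rw [if_neg hc'] at hd
      have he : ¬ (v ∈ s(c, a)) := by
        rw [Sym2.mem_iff]; rintro (h | h)
        · exact h2 h
        · exact h1 h
      rw [if_neg he]
      split_ifs at hd
      · exact ⟨1, by omega⟩
      · exact ⟨0, by omega⟩

/-- Degrees of a path are even except at its ends. -/
lemma even_path (v : ℕ) (l : List ℕ) (hl : l.Nodup) (h2 : 2 ≤ l.length)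
    (h3 : l.head? ≠ some v) (h4 : l.getLast? ≠ some v) : Even (dg (el (l, false)) v) := by
  have hne : l ≠ [] := by rintro rfl; simp at h2
  have hd := dg_pe v l hl hne
  rw [if_neg h3, if_neg h4] at hd
  rw [el_false]
  split_ifs at hd
  · exact ⟨1, by omega⟩
  · exact ⟨0, by omega⟩

lemma even_sum (s : Multiset ℕ) (h : ∀ a ∈ s, Even a) : Even s.sum := by
  induction s using Multiset.induction_on with
  | empty => simp
  | cons a s ih =>
    rw [Multiset.sum_cons]
    exact (h a (Multiset.mem_cons_self a s)).add
      (ih fun b hb => h b (Multiset.mem_cons_of_mem hb))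

/-- An end in the form of head or last vertex. -/
lemma exists_end (L : Multiset (List ℕ × Bool)) (M : Multiset (Sym2 ℕ)) (v : ℕ)
    (hD : Dec L M) (hodd : Odd (dg M v)) :
    ∃ x ∈ L, x.2 = false ∧ (x.1.head? = some v ∨ x.1.getLast? = some v) := by
  by_contra hcon
  push Not at hcon
  have : Even (dg M v) := by
    rw [← hD.2, dg_bind]
    apply even_sum
    intro a ha
    rw [Multiset.mem_map] at ha
    obtain ⟨x, hx, rfl⟩ := ha
    have hok := hD.1 x hx
    obtain ⟨l, c⟩ := x
    cases c with
    | true => exact even_cycle v l hok.1 hok.2.1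
    | false =>
      have := hcon (l, false) hx rfl
      exact even_path v l hok.1 hok.2.1 this.1 this.2
  exact (Nat.not_even_iff_odd.2 hodd) this

/-- The set of ends of an element. -/
def ends (x : List ℕ × Bool) : Finset ℕ :=
  if x.2 = true then ∅ else x.1.head?.toFinset ∪ x.1.getLast?.toFinset

lemma ends_card (x : List ℕ × Bool) : (ends x).card ≤ 2 := by
  unfold ends
  split_ifs
  · simp
  · refine (Finset.card_union_le _ _).trans ?_
    have h1 : ∀ o : Option ℕ, o.toFinset.card ≤ 1 := by
      intro o
      cases o with
      | none => simp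
      | some a => simp
    have := h1 x.1.head?
    have := h1 x.1.getLast?
    omega

lemma card_le_sum (L : Multiset (List ℕ × Bool)) : ∀ S : Finset ℕ,
    (∀ v ∈ S, ∃ x ∈ L, v ∈ ends x) → S.card ≤ (L.map fun x => (ends x).card).sum := by
  induction L using Multiset.induction_on with
  | empty =>
    intro S hS
    have : S = ∅ := by
      rw [Finset.eq_empty_iff_forall_notMem]
      intro v hv
      obtain ⟨x, hx, -⟩ := hS v hv
      simp at hx
    simp [this]
  | cons x L ih =>
    intro S hS
    rw [Multiset.map_cons, Multiset.sum_cons]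
    have h1 : (S \ ends x).card ≤ (L.map fun x => (ends x).card).sum := by
      apply ih
      intro v hv
      rw [Finset.mem_sdiff] at hv
      obtain ⟨y, hy, hvy⟩ := hS v hv.1
      rw [Multiset.mem_cons] at hy
      rcases hy with rfl | hy
      · exact absurd hvy hv.2
      · exact ⟨y, hy, hvy⟩
    have h2 := Finset.card_le_card_sdiff_add_card (s := S) (t := ends x)
    omega

lemma sum_le (L : Multiset (List ℕ × Bool)) :
    (L.map fun x => (ends x).card).sum ≤ 2 * Multiset.card L := by
  induction L using Multiset.induction_on with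
  | empty => simp
  | cons x L ih =>
    rw [Multiset.map_cons, Multiset.sum_cons, Multiset.card_cons]
    have := ends_card x
    omega

end Pool.Agent.Lib.MP_d51747_co.Paths.Ends

namespace Pool.Agent.Lib.MP_d51747_co.Paths

open Ends

/-- Vertices of odd degree are ends. -/
theorem stEnd : StEnd := by
  intro L M v hD hodd
  obtain ⟨⟨l, c⟩, hx, hc, h⟩ := exists_end L M v hD hodd
  simp only at hc h
  subst hc
  rcases h with h | h
  · cases l with
    | nil => simp at h
    | cons a p =>
      simp only [List.head?_cons, Option.some.injEq] at h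
      subst h
      exact ⟨p, Or.inl hx⟩
  · have h' : l.reverse.head? = some v := by rw [List.head?_reverse]; exact h
    cases hr : l.reverse with
    | nil => rw [hr] at h'; simp at h'
    | cons a p =>
      rw [hr] at h'
      simp only [List.head?_cons, Option.some.injEq] at h'
      subst h'
      refine ⟨p, Or.inr ?_⟩
      rw [← hr, List.reverse_reverse]
      exact hx

/-- If all vertices of `S` are odd and there are at most `|S| / 2` elements, all are paths. -/
theorem stAllPaths : StAllPaths := by
  intro L M S hD hS hcard x hx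
  by_contra hne
  have htrue : x.2 = true := by simpa using hne
  obtain ⟨L', rfl⟩ := Multiset.exists_cons_of_mem hx
  have h1 : S.card ≤ ((x ::ₘ L').map fun x => (ends x).card).sum := by
    apply card_le_sum
    intro v hv
    obtain ⟨y, hy, hc, h⟩ := exists_end _ M v hD (hS v hv)
    refine ⟨y, hy, ?_⟩
    unfold ends
    rw [if_neg (by rw [hc]; simp), Finset.mem_union]
    rcases h with h | h
    · left; simp [h]
    · right; simp [h]
  rw [Multiset.map_cons, Multiset.sum_cons] at h1
  have h2 : (ends x).card = 0 := by unfold ends; rw [if_pos htrue]; simp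
  have h3 := sum_le L'
  rw [Multiset.card_cons] at hcard
  omega

end Pool.Agent.Lib.MP_d51747_co.Paths
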