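import Mathlib
import Pool.Agent.Lib.MP_d51747_co.Paths.Stmts

set_option autoImplicit false

/-!
The final packing: any-fit decreasing bin packing of `M` distinct items into `M - 1` bins.
-/

namespace Pool.Agent.Lib.MP_d51747_co.Paths

namespace Final

theorem two_sum (s : ℕ) (A : Finset ℕ) (hA : ∀ t ∈ A, s ≤ t) :
    A.card * A.card + 2 * s * A.card ≤ 2 * (∑ t ∈ A, t) + A.card := by
  induction A using Finset.induction_on_max with
  | empty => simp
  | insert x A hx ih =>
    have hxA : x ∉ A := fun h => lt_irrefl _ (hx x h)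
    rw [Finset.sum_insert hxA, Finset.card_insert_of_notMem hxA]
    have h1 : A ⊆ Finset.Ico s x := fun t ht =>
      Finset.mem_Ico.2 ⟨hA t (Finset.mem_insert_of_mem ht), hx t ht⟩
    have h2 := Finset.card_le_card h1
    rw [Nat.card_Ico] at h2
    have h3 : s ≤ x := hA x (Finset.mem_insert_self _ _)
    have ih' := ih fun t ht => hA t (Finset.mem_insert_of_mem ht)
    have h4 : A.card + s ≤ x := by omega
    nlinarith

theorem place {B : Multiset (ℕ × Bool)} {I : Multiset ℕ} {P : Multiset ((ℕ × Bool) × Multiset ℕ)}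
    (h1 : P.map Prod.fst = B) (h2 : (P.map Prod.snd).sum = I) (h3 : ∀ p ∈ P, Fits p.1 p.2)
    {g : ℕ} {p : (ℕ × Bool) × Multiset ℕ} (hp : p ∈ P) (hf : Fits p.1 (g ::ₘ p.2)) :
    Packed B (g ::ₘ I) := by
  obtain ⟨Q, rfl⟩ := Multiset.exists_cons_of_mem hp
  refine ⟨(p.1, g ::ₘ p.2) ::ₘ Q, ?_, ?_, ?_⟩
  · rw [← h1, Multiset.map_cons, Multiset.map_cons]
  · rw [← h2, Multiset.map_cons, Multiset.map_cons, Multiset.sum_cons, Multiset.sum_cons,
      Multiset.cons_add]
  · intro q hq
    rcases Multiset.mem_cons.1 hq with rfl | hq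
    · exact hf
    · exact h3 q (Multiset.mem_cons_of_mem hq)

/-- Contribution of the bin `p` : `1` if it is not empty or if there are no cycles. -/
def dl (s : ℕ) (p : (ℕ × Bool) × Multiset ℕ) : ℕ :=
  if s = 0 ∨ Multiset.card p.2 ≠ 0 then 1 else 0

theorem not_fits {s g : ℕ} {p : (ℕ × Bool) × Multiset ℕ} (hs : s = 0 → p.1.2 = false)
    (hno : ¬ Fits p.1 (g ::ₘ p.2)) : p.1.1 + dl s p ≤ p.2.sum + g := by
  unfold dl
  unfold Fits at hno
  rw [Multiset.sum_cons] at hno
  split_ifs with h
  · by_contra hcon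
    apply hno
    refine ⟨by omega, fun hfl hm => ?_⟩
    rcases h with h | h
    · rw [hs h] at hfl; exact Bool.noConfusion hfl
    · have := congrArg Multiset.card hm
      rw [Multiset.card_cons, Multiset.card_singleton] at this
      omega
  · by_contra hcon
    apply hno
    refine ⟨by omega, fun _ hm => ?_⟩
    have h2 := congrArg Multiset.sum hm
    rw [Multiset.sum_cons, Multiset.sum_singleton] at h2
    omega

theorem dl_sum_zero (P : Multiset ((ℕ × Bool) × Multiset ℕ)) :
    (P.map (dl 0)).sum = Multiset.card P := by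
  have : dl 0 = fun _ => 1 := by
    funext p
    simp [dl]
  rw [this]
  simp

theorem dl_sum_pos (s : ℕ) (P : Multiset ((ℕ × Bool) × Multiset ℕ))
    (h : (P.map Prod.snd).sum ≠ 0) : 1 ≤ (P.map (dl s)).sum := by
  by_contra hcon
  apply h
  have h0 : (P.map (dl s)).sum = 0 := by omega
  rw [Multiset.sum_eq_zero_iff] at h0
  rw [Multiset.sum_eq_zero_iff]
  intro m hm
  obtain ⟨p, hp, rfl⟩ := Multiset.mem_map.1 hm
  have h1 := h0 (dl s p) (Multiset.mem_map_of_mem _ hp)
  unfold dl at h1
  split_ifs at h1 with h2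
  push Not at h2
  exact Multiset.card_eq_zero.1 h2.2

theorem key {s h M : ℕ} {T : Finset ℕ} (hT : T.card = M) (hTs : T ⊆ Finset.Icc s h)
    {P : Multiset ((ℕ × Bool) × Multiset ℕ)} (hP : Multiset.card P + 1 = M)
    (hsize : ∀ p ∈ P, p.1.1 ≤ 2 * h + 1) (hflag : s = 0 → ∀ p ∈ P, p.1.2 = false)
    {g : ℕ} (hg : g ∈ T) (hsum : (P.map Prod.snd).sum = (T.filter (g < ·)).val)
    (hno : ∀ p ∈ P, ¬ Fits p.1 (g ::ₘ p.2)) :
    ∃ a j w δ : ℕ, a + j + 1 = M ∧ h = g + j + w ∧ (s = 0 → δ = a + j) ∧ (j ≠ 0 → 1 ≤ δ) ∧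
      2 * (a + j) * (2 * h + 1) + 2 * δ + 2 * g + a * a + 2 * s * a ≤
        2 * ((∑ t ∈ T, t) + (P.map fun p => 2 * h + 1 - p.1.1).sum) + a + 2 * (a + j) * g := by
  classical
  have hgh : g ≤ h := (Finset.mem_Icc.1 (hTs hg)).2
  -- split `T`
  have hsplit : T = insert g ((T.filter (g < ·)) ∪ (T.filter (· < g))) := by
    ext t
    simp only [Finset.mem_insert, Finset.mem_union, Finset.mem_filter]
    constructor
    · intro ht
      rcases lt_trichotomy t g with h1 | h1 | h1
      · exact Or.inr (Or.inr ⟨ht, h1⟩)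
      · exact Or.inl h1
      · exact Or.inr (Or.inl ⟨ht, h1⟩)
    · rintro (rfl | h1 | h1)
      · exact hg
      · exact h1.1
      · exact h1.1
  have hdis : Disjoint (T.filter (g < ·)) (T.filter (· < g)) := by
    rw [Finset.disjoint_filter]
    intro t _ h1 h2
    omega
  have hgn : g ∉ (T.filter (g < ·)) ∪ (T.filter (· < g)) := by
    simp
  have hcard : (T.filter (· < g)).card + (T.filter (g < ·)).card + 1 = M := by
    rw [← hT]
    conv_rhs => rw [hsplit]
    rw [Finset.card_insert_of_notMem hgn, Finset.card_union_of_disjoint hdis]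
    omega
  have hsumT : (∑ t ∈ T, t) =
      g + ((∑ t ∈ T.filter (g < ·), t) + ∑ t ∈ T.filter (· < g), t) := by
    conv_lhs => rw [hsplit]
    rw [Finset.sum_insert hgn, Finset.sum_union hdis]
  have hj : (T.filter (g < ·)).card ≤ h - g := by
    have h1 : T.filter (g < ·) ⊆ Finset.Ioc g h := by
      intro t ht
      rw [Finset.mem_filter] at ht
      exact Finset.mem_Ioc.2 ⟨ht.2, (Finset.mem_Icc.1 (hTs ht.1)).2⟩
    have h2 := Finset.card_le_card h1
    rwa [Nat.card_Ioc] at h2
  have hlow := two_sum s (T.filter (· < g)) (by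
    intro t ht
    exact (Finset.mem_Icc.1 (hTs (Finset.mem_filter.1 ht).1)).1)
  -- sum over the bins
  have h1 : (P.map fun p => 2 * h + 1 + dl s p).sum ≤
      (P.map fun p => (2 * h + 1 - p.1.1) + (p.2.sum + g)).sum := by
    refine Multiset.sum_map_le_sum_map _ _ fun p hp => ?_
    have h2 := not_fits (s := s) (fun h0 => hflag h0 p hp) (hno p hp)
    have h3 := hsize p hp
    omega
  have h2 : (P.map fun p : (ℕ × Bool) × Multiset ℕ => p.2.sum).sum =
      ∑ t ∈ T.filter (g < ·), t := by
    have h3 := congrArg Multiset.sum hsum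
    rw [Finset.sum_val] at h3
    have h5 : ∀ Q : Multiset ((ℕ × Bool) × Multiset ℕ),
        (Q.map fun p : (ℕ × Bool) × Multiset ℕ => p.2.sum).sum = (Q.map Prod.snd).sum.sum := by
      intro Q
      induction Q using Multiset.induction with
      | empty => simp
      | cons p Q ih =>
        rw [Multiset.map_cons, Multiset.map_cons, Multiset.sum_cons, Multiset.sum_cons,
          Multiset.sum_add, ih]
    rw [h5, h3]
    rfl
  have h6 : (P.map fun p => 2 * h + 1 + dl s p).sum =
      Multiset.card P * (2 * h + 1) + (P.map (dl s)).sum := by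
    rw [Multiset.sum_map_add (m := P) (f := fun _ => 2 * h + 1) (g := dl s), Multiset.map_const',
      Multiset.sum_replicate, smul_eq_mul]
  have h7 : (P.map fun p => (2 * h + 1 - p.1.1) + (p.2.sum + g)).sum =
      (P.map fun p => 2 * h + 1 - p.1.1).sum +
        ((∑ t ∈ T.filter (g < ·), t) + Multiset.card P * g) := by
    rw [Multiset.sum_map_add (m := P) (f := fun p => 2 * h + 1 - p.1.1)
      (g := fun p => p.2.sum + g), Multiset.sum_map_add (m := P) (f := fun p => p.2.sum)
      (g := fun _ => g), h2, Multiset.map_const', Multiset.sum_replicate, smul_eq_mul]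
  rw [h6, h7] at h1
  refine ⟨(T.filter (· < g)).card, (T.filter (g < ·)).card, h - g - (T.filter (g < ·)).card,
    (P.map (dl s)).sum, hcard, by omega, ?_, ?_, ?_⟩
  · rintro rfl
    rw [dl_sum_zero]
    omega
  · intro h0
    apply dl_sum_pos
    rw [hsum]
    intro h3
    apply h0
    rw [Finset.card, h3, Multiset.card_zero]
  · have hPc : Multiset.card P = (T.filter (· < g)).card + (T.filter (g < ·)).card := by omega
    rw [hPc] at h1
    rw [hsumT]
    generalize (T.filter (· < g)).card = a at *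
    generalize (T.filter (g < ·)).card = j at *
    generalize (P.map (dl s)).sum = δ at *
    generalize (P.map fun p => 2 * h + 1 - p.1.1).sum = D at *
    generalize (∑ t ∈ T.filter (g < ·), t) = U at *
    generalize (∑ t ∈ T.filter (· < g), t) = Lw at *
    nlinarith

theorem arith0 {a j w g M : ℕ} (hM : 2 ≤ M) (h1 : a + j + 1 = M) {X : ℕ}
    (hX : 2 * (a + j) * (2 * (g + j + w) + 1) + 2 * (a + j) + 2 * g + a * a ≤
      2 * X + a + 2 * (a + j) * g)
    (hC : 2 * X ≤ M * (M - 1) + 2 * (M * (g + j + w)) + (M - 1)) : False := by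
  subst h1
  rw [Nat.add_sub_cancel] at hC
  rcases Nat.eq_zero_or_pos j with rfl | hj
  · obtain ⟨a', rfl⟩ : ∃ a', a = a' + 1 := ⟨a - 1, by omega⟩
    nlinarith [Nat.zero_le (a' * w)]
  · obtain ⟨j', rfl⟩ : ∃ j', j = j' + 1 := ⟨j - 1, by omega⟩
    nlinarith [Nat.zero_le (a * w), Nat.zero_le (j' * w), Nat.zero_le (j' * j')]

theorem arith1 {a j w g M δ : ℕ} (hM : 2 ≤ M) (h1 : a + j + 1 = M) (hδ : j ≠ 0 → 1 ≤ δ) {X : ℕ}
    (hX : 2 * (a + j) * (2 * (g + j + w) + 1) + 2 * δ + 2 * g + a * a + 2 * a ≤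
      2 * X + a + 2 * (a + j) * g)
    (hC : 2 * X + 4 ≤ M * (M + 1) + 2 * (M * (g + j + w))) : False := by
  subst h1
  rcases Nat.eq_zero_or_pos j with rfl | hj
  · obtain ⟨a', rfl⟩ : ∃ a', a = a' + 1 := ⟨a - 1, by omega⟩
    nlinarith [Nat.zero_le (a' * w)]
  · have hd := hδ (by omega)
    obtain ⟨j', rfl⟩ : ∃ j', j = j' + 1 := ⟨j - 1, by omega⟩
    rcases Nat.eq_zero_or_pos j' with rfl | hj'
    · nlinarith [Nat.zero_le (a * w)]
    · obtain ⟨i, rfl⟩ : ∃ i, j' = i + 1 := ⟨j' - 1, by omega⟩
      nlinarith [Nat.zero_le (a * w), Nat.zero_le (i * w), Nat.zero_le (i * i)]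

/-- The greedy packing, downwards. -/
theorem pack {s h : ℕ} {B : Multiset (ℕ × Bool)} {T : Finset ℕ}
    (hstuck : ∀ (P : Multiset ((ℕ × Bool) × Multiset ℕ)) (g : ℕ), P.map Prod.fst = B → g ∈ T →
      (P.map Prod.snd).sum = (T.filter (g < ·)).val → (∀ p ∈ P, ¬ Fits p.1 (g ::ₘ p.2)) → False)
    (hTs : T ⊆ Finset.Icc s h) : Packed B (T.erase 0).val := by
  classical
  have hall : ∀ n : ℕ, n ≤ h → Packed B (T.filter (h - n < ·)).val := by
    intro n
    induction n with
    | zero =>
      intro _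
      refine ⟨B.map fun b => (b, 0), ?_, ?_, ?_⟩
      · rw [Multiset.map_map]
        simp
      · rw [Multiset.map_map]
        have h1 : T.filter (h - 0 < ·) = ∅ := by
          rw [Finset.filter_eq_empty_iff]
          intro t ht
          have := (Finset.mem_Icc.1 (hTs ht)).2
          omega
        rw [h1]
        simp
      · intro p hp
        obtain ⟨b, _, rfl⟩ := Multiset.mem_map.1 hp
        refine ⟨by simp, fun _ h0 => ?_⟩
        exact (Multiset.singleton_ne_zero _) h0.symm
    | succ n ih =>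
      intro hn
      obtain ⟨P, h1, h2, h3⟩ := ih (by omega)
      by_cases hg : h - n ∈ T
      · have h4 : T.filter (h - (n + 1) < ·) = insert (h - n) (T.filter (h - n < ·)) := by
          ext t
          simp only [Finset.mem_filter, Finset.mem_insert]
          constructor
          · rintro ⟨ht, h5⟩
            rcases Nat.lt_or_ge (h - n) t with h6 | h6
            · exact Or.inr ⟨ht, h6⟩
            · exact Or.inl (by omega)
          · rintro (rfl | ⟨ht, h5⟩)
            · exact ⟨hg, by omega⟩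
            · exact ⟨ht, by omega⟩
        have h5 : h - n ∉ T.filter (h - n < ·) := by simp
        rw [h4, Finset.insert_val_of_notMem h5]
        by_contra hcon
        refine hstuck P (h - n) h1 hg h2 fun p hp hf => hcon ?_
        exact place h1 h2 h3 hp hf
      · have h4 : T.filter (h - (n + 1) < ·) = T.filter (h - n < ·) := by
          ext t
          simp only [Finset.mem_filter]
          constructor
          · rintro ⟨ht, h5⟩
            refine ⟨ht, ?_⟩
            have h6 : t ≠ h - n := by rintro rfl; exact hg ht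
            omega
          · rintro ⟨ht, h5⟩
            exact ⟨ht, by omega⟩
        rw [h4]
        exact ⟨P, h1, h2, h3⟩
  have h1 := hall h le_rfl
  have h2 : T.filter (h - h < ·) = T.erase 0 := by
    ext t
    simp only [Finset.mem_filter, Finset.mem_erase]
    constructor
    · rintro ⟨ht, h5⟩
      exact ⟨by omega, ht⟩
    · rintro ⟨h5, ht⟩
      exact ⟨ht, by omega⟩
  rwa [h2] at h1

end Final

open Final in
theorem stFinal : StFinal := by
  constructor
  · intro h M hM B T hB hT hTs hfl hsz hC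
    refine pack (s := 0) (h := h) ?_ hTs
    intro P g hPB hg hsum hno
    subst hPB
    rw [Multiset.card_map] at hB
    rw [Multiset.map_map] at hC
    obtain ⟨a, j, w, δ, e1, e2, e3, -, e5⟩ := key hT hTs hB
      (fun p hp => hsz p.1 (Multiset.mem_map_of_mem _ hp))
      (fun _ p hp => hfl rfl p.1 (Multiset.mem_map_of_mem _ hp)) hg hsum hno
    rw [e3 rfl] at e5
    subst e2
    refine arith0 (g := g) (w := w) hM e1 (X := (∑ t ∈ T, t) +
      (P.map fun p => 2 * (g + j + w) + 1 - p.1.1).sum) ?_ ?_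
    · simpa using e5
    · have h1 : (∑ t ∈ T, t) + (P.map fun p => 2 * (g + j + w) + 1 - p.1.1).sum ≤
          M * (M - 1) / 2 + M * (g + j + w) + (M - 1) / 2 := hC
      have h2 := Nat.div_mul_le_self (M * (M - 1)) 2
      have h3 := Nat.div_mul_le_self (M - 1) 2
      omega
  · intro h M hM B T hB hT hTs hfl hsz hC
    refine pack (s := 1) (h := h) ?_ hTs
    intro P g hPB hg hsum hno
    subst hPB
    rw [Multiset.card_map] at hB
    rw [Multiset.map_map] at hC
    obtain ⟨a, j, w, δ, e1, e2, -, e4, e5⟩ := key hT hTs hB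
      (fun p hp => hsz p.1 (Multiset.mem_map_of_mem _ hp))
      (fun h0 => absurd h0 one_ne_zero) hg hsum hno
    subst e2
    refine arith1 (g := g) (w := w) hM e1 e4 (X := (∑ t ∈ T, t) +
      (P.map fun p => 2 * (g + j + w) + 1 - p.1.1).sum) ?_ ?_
    · simpa using e5
    · have h1 : (∑ t ∈ T, t) + (P.map fun p => 2 * (g + j + w) + 1 - p.1.1).sum ≤
          M * (M + 1) / 2 + M * (g + j + w) - 2 := hC
      have h2 := Nat.div_mul_le_self (M * (M + 1)) 2
      have h4 : 2 * 3 ≤ M * (M + 1) := Nat.mul_le_mul hM (by omega)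
      have h5 : 3 ≤ M * (M + 1) / 2 := by omega
      omega

end Pool.Agent.Lib.MP_d51747_co.Paths
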