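import Mathlib
import Pool.Agent.Lib.TightTree.Graph
import Pool.Agent.Lib.MP_d51747_co.Paths.Stmts

set_option autoImplicit false

namespace Pool.Agent.Lib.MP_d51747_co.Paths.Greedy

open Finset Classical

/-- Greedy packing of the trees `T_k, T_{k-1}, …` using the Erdős–Sós theorem. -/
theorem greedy (k n : ℕ) (hn0 : 0 < n)
    (T : (i : ℕ) → SimpleGraph (Fin i)) (hT : ∀ i, 2 ≤ i → i ≤ k → (T i).IsTree)
    (G : SimpleGraph (Fin n))
    (hn : ∀ j, j + 2 ≤ k → (k - j - 2) * n + j * (2 * k - j - 1) < 2 * G.edgeSet.ncard)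
    (m : ℕ) : m + 1 ≤ k →
    ∃ (f : (i : ℕ) → Fin i → Fin n) (U : Finset (Sym2 (Fin n))),
      2 * U.card ≤ m * (2 * k - m - 1) ∧
      (∀ i, k - m < i → i ≤ k → Function.Injective (f i) ∧
        ∀ a b : Fin i, (T i).Adj a b → G.Adj (f i a) (f i b) ∧ s(f i a, f i b) ∈ U) ∧
      (∀ i j, k - m < i → i ≤ k → k - m < j → j ≤ k → i ≠ j →
        ∀ (a b : Fin i) (c d : Fin j), (T i).Adj a b → (T j).Adj c d →
          s(f i a, f i b) ≠ s(f j c, f j d)) := by
  induction m with
  | zero =>
    intro _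
    refine ⟨fun _ _ => ⟨0, hn0⟩, ∅, by simp, ?_, ?_⟩
    · intro i h1 h2; omega
    · intro i j h1 h2; omega
  | succ m ih =>
    intro hm
    obtain ⟨f, U, hU, hf, hd⟩ := ih (by omega)
    set i₀ := k - m with hi₀
    have hi2 : 2 ≤ i₀ := by omega
    have hik : i₀ ≤ k := by omega
    set G' := G.deleteEdges (U : Set (Sym2 (Fin n))) with hG'
    have hle : G.edgeSet.ncard ≤ G'.edgeFinset.card + U.card := by
      have h1 : G.edgeSet ⊆ (G'.edgeFinset ∪ U : Finset (Sym2 (Fin n))) := by
        intro e he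
        rw [Finset.coe_union, Set.mem_union, Finset.mem_coe, Finset.mem_coe,
          SimpleGraph.mem_edgeFinset, hG', SimpleGraph.edgeSet_deleteEdges]
        by_cases heU : e ∈ U
        · exact Or.inr heU
        · left; exact ⟨he, fun h => heU (by simpa using h)⟩
      have h2 := Set.ncard_le_ncard h1 (Set.toFinite _)
      rw [Set.ncard_coe_finset] at h2
      exact h2.trans (Finset.card_union_le _ _)
    have hES : (Fintype.card (Fin i₀) - 2) * Fintype.card (Fin n) < 2 * G'.edgeFinset.card := by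
      rw [Fintype.card_fin, Fintype.card_fin]
      have h3 := hn m (by omega)
      have e1 : i₀ - 2 = k - m - 2 := by omega
      rw [e1]
      omega
    obtain ⟨g, hg, hadj⟩ := Pool.Agent.Lib.TightTree.erdos_sos G' (T i₀) (hT i₀ hi2 hik) hES
    have hadj' : ∀ a b, (T i₀).Adj a b → G.Adj (g a) (g b) ∧ s(g a, g b) ∉ U := by
      intro a b hab
      have := hadj a b hab
      rw [hG', SimpleGraph.deleteEdges_adj] at this
      exact ⟨this.1, fun h => this.2 (by simpa using h)⟩
    set U' : Finset (Sym2 (Fin n)) := U ∪ (T i₀).edgeFinset.image (Sym2.map g) with hU'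
    have hmem : ∀ a b, (T i₀).Adj a b → s(g a, g b) ∈ U' := by
      intro a b hab
      rw [hU', Finset.mem_union]
      right
      rw [Finset.mem_image]
      exact ⟨s(a, b), by rw [SimpleGraph.mem_edgeFinset]; exact hab, by simp⟩
    have hcard : 2 * U'.card ≤ (m + 1) * (2 * k - (m + 1) - 1) := by
      have h1 := Finset.card_union_le U ((T i₀).edgeFinset.image (Sym2.map g))
      have h2 : ((T i₀).edgeFinset.image (Sym2.map g)).card ≤ (T i₀).edgeFinset.card :=
        Finset.card_image_le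
      have h3 := (hT i₀ hi2 hik).card_edgeFinset
      rw [Fintype.card_fin] at h3
      obtain ⟨s, hs⟩ : ∃ s, k = m + 2 + s := ⟨k - m - 2, by omega⟩
      have e1 : 2 * k - m - 1 = m + 3 + 2 * s := by omega
      have e2 : 2 * k - (m + 1) - 1 = m + 2 + 2 * s := by omega
      have e3 : (T i₀).edgeFinset.card = s + 1 := by omega
      rw [e1] at hU
      rw [e2]
      have h4 : 2 * U'.card ≤ m * (m + 3 + 2 * s) + 2 * (s + 1) := by
        have : U'.card ≤ U.card + ((T i₀).edgeFinset.image (Sym2.map g)).card := h1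
        omega
      have h5 : m * (m + 3 + 2 * s) + 2 * (s + 1) = (m + 1) * (m + 2 + 2 * s) := by ring
      omega
    -- the new family of maps
    set f' : (i : ℕ) → Fin i → Fin n := Function.update f i₀ g with hf'
    have hfo : ∀ i, i ≠ i₀ → f' i = f i := fun i hi => Function.update_of_ne hi _ _
    have hfi : f' i₀ = g := Function.update_self _ _ _
    have hold : ∀ i, k - (m + 1) < i → i ≤ k → i ≠ i₀ → k - m < i := by
      intro i h1 h2 h3; omega
    have key : ∀ i, k - (m + 1) < i → i ≤ k → i ≠ i₀ →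
        ∀ (a b : Fin i) (c d : Fin i₀), (T i).Adj a b → (T i₀).Adj c d →
          s(f' i a, f' i b) ≠ s(f' i₀ c, f' i₀ d) := by
      intro i h1 h2 h3 a b c d hab hcd heq
      rw [hfo i h3, hfi] at heq
      have h4 := ((hf i (hold i h1 h2 h3) h2).2 a b hab).2
      rw [heq] at h4
      exact (hadj' c d hcd).2 h4
    refine ⟨f', U', hcard, ?_, ?_⟩
    · intro i h1 h2
      by_cases hi : i = i₀
      · subst hi
        rw [hfi]
        exact ⟨hg, fun a b hab => ⟨(hadj' a b hab).1, hmem a b hab⟩⟩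
      · rw [hfo i hi]
        obtain ⟨h3, h4⟩ := hf i (hold i h1 h2 hi) h2
        refine ⟨h3, fun a b hab => ⟨(h4 a b hab).1, ?_⟩⟩
        rw [hU', Finset.mem_union]
        exact Or.inl (h4 a b hab).2
    · intro i j h1 h2 h3 h4 hij a b c d hab hcd
      by_cases hi : i = i₀
      · subst hi
        exact (key j h3 h4 (Ne.symm hij) c d a b hcd hab).symm
      · by_cases hj : j = i₀
        · subst hj
          exact key i h1 h2 hi a b c d hab hcd
        · rw [hfo i hi, hfo j hj]
          exact hd i j (hold i h1 h2 hi) h2 (hold j h3 h4 hj) h4 hij a b c d hab hcd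

end Pool.Agent.Lib.MP_d51747_co.Paths.Greedy

namespace Pool.Agent.Lib.MP_d51747_co.Paths

theorem stGreedy : StGreedy := by
  intro n s hn0 T hT G hn
  by_cases hs : 1 ≤ s
  · obtain ⟨f, U, _, hf, hd⟩ := Greedy.greedy s n hn0 T hT G hn (s - 1) (by omega)
    refine ⟨f, ?_, ?_⟩
    · intro i h1 h2
      obtain ⟨h3, h4⟩ := hf i (by omega) h2
      exact ⟨h3, fun a b hab => (h4 a b hab).1⟩
    · intro i j h1 h2 h3 h4 hij
      exact hd i j (by omega) h2 (by omega) h4 hij
  · refine ⟨fun _ _ => ⟨0, hn0⟩, ?_, ?_⟩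
    · intro i h1 h2; omega
    · intro i j h1 h2; omega

end Pool.Agent.Lib.MP_d51747_co.Paths
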