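import Mathlib
import Pool.Agent.Lib.MP_d51747_co.Paths.Stmts

set_option autoImplicit false

/-!
# The handshake lemma
-/

namespace Pool.Agent.Lib.MP_d51747_co.Paths.Hand

open Pool.Agent.Lib.MP_d51747_co.Paths

lemma dg_eq (E : Finset (Sym2 ℕ)) (v : ℕ) : dg E.val v = (E.filter fun e => v ∈ e).card := by
  unfold dg
  rw [Multiset.countP_eq_card_filter]
  rfl

lemma card_ends (e : Sym2 ℕ) (S : Finset ℕ) (hd : ¬ e.IsDiag) (hS : ∀ v ∈ e, v ∈ S) :
    (S.filter fun v => v ∈ e).card = 2 := by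
  induction e using Sym2.ind with
  | _ a b =>
    have hab : a ≠ b := by simpa using hd
    have : (S.filter fun v => v ∈ s(a, b)) = {a, b} := by
      ext v
      rw [Finset.mem_filter, Sym2.mem_iff, Finset.mem_insert, Finset.mem_singleton]
      constructor
      · exact fun h => h.2
      · intro h
        refine ⟨hS v ?_, h⟩
        rw [Sym2.mem_iff]; exact h
    rw [this, Finset.card_pair hab]

lemma sum_dg (E : Finset (Sym2 ℕ)) (S : Finset ℕ) (hd : ∀ e ∈ E, ¬ e.IsDiag)
    (hS : ∀ e ∈ E, ∀ v ∈ e, v ∈ S) : ∑ v ∈ S, dg E.val v = 2 * E.card := by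
  have h1 : ∑ v ∈ S, dg E.val v = ∑ v ∈ S, (E.filter fun e => v ∈ e).card :=
    Finset.sum_congr rfl fun v _ => dg_eq E v
  have h2 : ∑ v ∈ S, (E.filter fun e => v ∈ e).card =
      ∑ e ∈ E, (S.filter fun v => v ∈ e).card :=
    Finset.sum_card_bipartiteAbove_eq_sum_card_bipartiteBelow fun (v : ℕ) (e : Sym2 ℕ) => v ∈ e
  rw [h1, h2, Finset.sum_congr rfl fun e he => card_ends e S (hd e he) (hS e he)]
  simp [mul_comm]

end Pool.Agent.Lib.MP_d51747_co.Paths.Hand

namespace Pool.Agent.Lib.MP_d51747_co.Paths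

/-- Handshake lemma. -/
theorem stHand : StHand := by
  intro E S hd hS
  have h := Hand.sum_dg E S hd hS
  refine ⟨h, ?_⟩
  have h2 : Even (∑ v ∈ S, dg E.val v) := by rw [h]; exact even_two_mul _
  exact (Finset.even_sum_iff_even_card_odd fun v => dg E.val v).1 h2

end Pool.Agent.Lib.MP_d51747_co.Paths
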