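import Pool.Agent.Lib.MP_d51747_co.Paths.Stmts

set_option autoImplicit false

/-! The LIFO assignment. -/

namespace Pool.Agent.Lib.MP_d51747_co.Paths
namespace Lifo

lemma packed_cons {R : Multiset (ℕ × Bool)} {I m : Multiset ℕ} {b : ℕ × Bool}
    (hR : Packed R I) (hb : Fits b m) : Packed (b ::ₘ R) (m + I) := by
  obtain ⟨P, h1, h2, h3⟩ := hR
  refine ⟨(b, m) ::ₘ P, by simp [h1], by simp [h2], ?_⟩
  intro p hp
  rcases Multiset.mem_cons.1 hp with rfl | hp
  · exact hb
  · exact h3 p hp

lemma sum_low (T : Finset ℕ) (μ : ℕ) (h : ∀ t ∈ T, μ ≤ t) :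
    T.card * (2 * μ + T.card) ≤ 2 * (∑ t ∈ T, t) + T.card := by
  induction T using Finset.induction_on_max with
  | empty => simp
  | insert a s hs ih =>
    have has : a ∉ s := fun h' => lt_irrefl _ (hs a h')
    have h1 := ih (fun t ht => h t (Finset.mem_insert_of_mem ht))
    have h2 : s.card ≤ a - μ := by
      have : s ⊆ Finset.Ico μ a := fun t ht =>
        Finset.mem_Ico.2 ⟨h t (Finset.mem_insert_of_mem ht), hs t ht⟩
      simpa using Finset.card_le_card this
    have h3 : μ ≤ a := h a (Finset.mem_insert_self _ _)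
    rw [Finset.card_insert_of_notMem has, Finset.sum_insert has]
    have h4 : μ + s.card ≤ a := by omega
    nlinarith

/-- the items left -/
def items (h τ : ℕ) (T : Finset ℕ) : Multiset ℕ :=
  (Finset.Icc τ h).val.map (fun t => 2 * h + 1 - t) + ((T ∪ Finset.Icc τ h).erase 0).val

lemma icc_val {τ h : ℕ} (hτ : τ ≤ h) : (Finset.Icc τ h).val = τ ::ₘ (Finset.Icc (τ + 1) h).val := by
  have h1 : Finset.Icc τ h = insert τ (Finset.Icc (τ + 1) h) := by
    ext x
    simp only [Finset.mem_insert, Finset.mem_Icc]
    omega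
  have h2 : τ ∉ Finset.Icc (τ + 1) h := by simp
  rw [h1, Finset.insert_val_of_notMem h2]

lemma items_zero {h τ : ℕ} {T : Finset ℕ} (hτ : τ ≤ h) (h0 : 0 < τ) (hT : ∀ t ∈ T, t < τ) :
    items h τ T = ({2 * h + 1 - τ, τ} : Multiset ℕ) + items h (τ + 1) T := by
  unfold items
  have h1 : (T ∪ Finset.Icc τ h).erase 0 = insert τ ((T ∪ Finset.Icc (τ + 1) h).erase 0) := by
    ext x
    simp only [Finset.mem_insert, Finset.mem_erase, Finset.mem_union, Finset.mem_Icc]
    constructor
    · rintro ⟨h1, h2 | h2⟩
      · exact Or.inr ⟨h1, Or.inl h2⟩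
      · by_cases h3 : x = τ
        · exact Or.inl h3
        · exact Or.inr ⟨h1, Or.inr (by omega)⟩
    · rintro (rfl | ⟨h1, h2 | h2⟩)
      · exact ⟨by omega, Or.inr ⟨le_rfl, hτ⟩⟩
      · exact ⟨h1, Or.inl h2⟩
      · exact ⟨h1, Or.inr ⟨by omega, h2.2⟩⟩
  have h2 : τ ∉ (T ∪ Finset.Icc (τ + 1) h).erase 0 := by
    simp only [Finset.mem_erase, Finset.mem_union, Finset.mem_Icc, not_and, not_or]
    intro _
    exact ⟨fun h' => lt_irrefl _ (hT τ h'), by omega⟩
  rw [h1, Finset.insert_val_of_notMem h2, icc_val hτ, Multiset.map_cons]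
  ext x
  simp only [Multiset.count_add, Multiset.count_cons, Multiset.insert_eq_cons,
    Multiset.count_singleton]
  omega

lemma items_pos {h τ d : ℕ} {T : Finset ℕ} (hτ : τ ≤ h) (hd : 0 < d) (hdτ : d ≤ τ)
    (hT : ∀ t ∈ T, t < τ) (hm : τ - d ∈ T) :
    items h τ T = ({2 * h + 1 - τ} : Multiset ℕ) + ((if τ - d = 0 then 0 else {τ - d}) +
      items h (τ + 1) (insert τ (T.erase (τ - d)))) := by
  unfold items
  have h0 : 0 < τ := by omega
  rw [icc_val hτ, Multiset.map_cons]
  by_cases hz : τ - d = 0
  · have h1 : (T ∪ Finset.Icc τ h).erase 0 =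
        (insert τ (T.erase (τ - d)) ∪ Finset.Icc (τ + 1) h).erase 0 := by
      ext x
      simp only [Finset.mem_insert, Finset.mem_erase, Finset.mem_union, Finset.mem_Icc, hz]
      constructor
      · rintro ⟨h1, h2 | h2⟩
        · exact ⟨h1, Or.inl (Or.inr ⟨h1, h2⟩)⟩
        · by_cases h3 : x = τ
          · exact ⟨h1, Or.inl (Or.inl h3)⟩
          · exact ⟨h1, Or.inr (by omega)⟩
      · rintro ⟨h1, (rfl | ⟨_, h2⟩) | h2⟩
        · exact ⟨h1, Or.inr ⟨le_rfl, hτ⟩⟩
        · exact ⟨h1, Or.inl h2⟩
        · exact ⟨h1, Or.inr ⟨by omega, h2.2⟩⟩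
    rw [h1, if_pos hz]
    ext x
    simp only [Multiset.count_add, Multiset.count_cons, Multiset.count_singleton,
      Multiset.count_zero]
    omega
  · have h1 : (T ∪ Finset.Icc τ h).erase 0 = insert (τ - d)
        ((insert τ (T.erase (τ - d)) ∪ Finset.Icc (τ + 1) h).erase 0) := by
      ext x
      simp only [Finset.mem_insert, Finset.mem_erase, Finset.mem_union, Finset.mem_Icc]
      constructor
      · rintro ⟨h1, h2 | h2⟩
        · by_cases h3 : x = τ - d
          · exact Or.inl h3
          · exact Or.inr ⟨h1, Or.inl (Or.inr ⟨h3, h2⟩)⟩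
        · by_cases h3 : x = τ
          · exact Or.inr ⟨h1, Or.inl (Or.inl h3)⟩
          · exact Or.inr ⟨h1, Or.inr (by omega)⟩
      · rintro (rfl | ⟨h1, (rfl | ⟨_, h2⟩) | h2⟩)
        · exact ⟨hz, Or.inl hm⟩
        · exact ⟨h1, Or.inr ⟨le_rfl, hτ⟩⟩
        · exact ⟨h1, Or.inl h2⟩
        · exact ⟨h1, Or.inr ⟨by omega, h2.2⟩⟩
    have h2 : τ - d ∉ (insert τ (T.erase (τ - d)) ∪ Finset.Icc (τ + 1) h).erase 0 := by
      simp only [Finset.mem_insert, Finset.mem_erase, Finset.mem_union, Finset.mem_Icc]
      rintro ⟨_, (h | ⟨h, _⟩) | h⟩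
      · omega
      · exact h rfl
      · omega
    rw [h1, if_neg hz, Finset.insert_val_of_notMem h2]
    ext x
    simp only [Multiset.count_add, Multiset.count_cons, Multiset.count_singleton]
    omega

lemma exists_max {R : Multiset (ℕ × Bool)} (f : ℕ × Bool → ℕ) (L : ℕ)
    (h : ∃ b ∈ R, f b ≤ L) : ∃ b ∈ R, f b ≤ L ∧ ∀ b' ∈ R, f b' ≤ L → f b' ≤ f b := by
  classical
  obtain ⟨b₀, hb₀, hL⟩ := h
  have hne : (R.toFinset.filter fun b => f b ≤ L).Nonempty :=
    ⟨b₀, Finset.mem_filter.2 ⟨Multiset.mem_toFinset.2 hb₀, hL⟩⟩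
  obtain ⟨b, hb, hmax⟩ := Finset.exists_max_image _ f hne
  rw [Finset.mem_filter, Multiset.mem_toFinset] at hb
  exact ⟨b, hb.1, hb.2, fun b' hb' h' =>
    hmax b' (Finset.mem_filter.2 ⟨Multiset.mem_toFinset.2 hb', h'⟩)⟩

theorem key (s h M C : ℕ) (hs : s ≤ 1) (hM : 1 ≤ M) (hF : FinalOk s h M C)
    (hC : 2 * C < 2 * M * h + M * (M + 1)) : ∀ (k τ : ℕ) (T : Finset ℕ) (R : Multiset (ℕ × Bool)),
    τ + k = h + 1 → (∀ t ∈ T, s ≤ t ∧ t < τ) → T.card = M → Multiset.card R = k + (M - 1) →
    (s = 0 → ∀ b ∈ R, b.2 = false) → (∀ b ∈ R, b.1 ≤ 2 * h + 1) →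
    (∑ t ∈ T, t) + (R.map fun b => 2 * h + 1 - b.1).sum ≤ C →
    (∀ b ∈ R, ∀ t ∈ T, t + (2 * h + 1 - b.1) < τ → ∀ x, τ ≤ x + (2 * h + 1 - b.1) → x < τ →
      x ∈ T) →
    Packed R (items h τ T) := by
  intro k
  induction k with
  | zero =>
    intro τ T R hτ hT hTc hRc hfl hsz hsum _
    have h1 : items h τ T = (T.erase 0).val := by
      unfold items
      have : Finset.Icc τ h = ∅ := Finset.Icc_eq_empty (by omega)
      rw [this]
      simp
    rw [h1]
    refine hF R T (by omega) hTc ?_ hfl hsz hsum
    intro t ht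
    have := hT t ht
    exact Finset.mem_Icc.2 ⟨this.1, by omega⟩
  | succ k ih =>
    intro τ T R hτ hT hTc hRc hfl hsz hsum hInv
    have hTne : T.Nonempty := Finset.card_pos.1 (by omega)
    set μ := T.min' hTne with hμ
    have hμT : μ ∈ T := T.min'_mem hTne
    have hμle : ∀ t ∈ T, μ ≤ t := fun t ht => T.min'_le t ht
    have hμτ : μ < τ := (hT μ hμT).2
    have hMle : M ≤ τ - μ := by
      have : T ⊆ Finset.Ico μ τ := fun t ht => Finset.mem_Ico.2 ⟨hμle t ht, (hT t ht).2⟩
      have := Finset.card_le_card this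
      simpa [hTc] using this
    -- some bin has a small deficit
    have hex : ∃ b ∈ R, 2 * h + 1 - b.1 ≤ τ - μ := by
      by_contra hcon
      push Not at hcon
      have h1 : Multiset.card R • (τ - μ + 1) ≤ (R.map fun b => 2 * h + 1 - b.1).sum := by
        have := Multiset.card_nsmul_le_sum (s := R.map fun b => 2 * h + 1 - b.1) (a := τ - μ + 1)
          (by
            intro x hx
            obtain ⟨b, hb, rfl⟩ := Multiset.mem_map.1 hx
            have := hcon b hb
            omega)
        simpa using this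
      have h2 := sum_low T μ hμle
      rw [hTc] at h2
      rw [hRc, smul_eq_mul] at h1
      obtain ⟨δ, hδ⟩ : ∃ δ, τ = μ + δ := ⟨τ - μ, by omega⟩
      have hδM : M ≤ δ := by omega
      have h3 : τ - μ = δ := by omega
      rw [h3] at h1
      obtain ⟨M', rfl⟩ : ∃ M', M = M' + 1 := ⟨M - 1, by omega⟩
      have h4 : h = μ + δ + k := by omega
      subst h4
      simp only [Nat.add_sub_cancel] at h1
      have h5 : (M' + 1) * (2 * μ + (M' + 1)) + 2 * ((k + 1 + M') * (δ + 1)) ≤
          2 * C + (M' + 1) := by omega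
      nlinarith
    obtain ⟨b, hbR, hbL, hbmax⟩ := exists_max (fun b => 2 * h + 1 - b.1) (τ - μ) hex
    obtain ⟨R', rfl⟩ := Multiset.exists_cons_of_mem hbR
    have hbsz := hsz b hbR
    set d := 2 * h + 1 - b.1 with hd
    have hb1 : b.1 = 2 * h + 1 - d := by omega
    have hRc' : Multiset.card R' = k + (M - 1) := by
      simp only [Multiset.card_cons] at hRc
      omega
    have hfl' : s = 0 → ∀ b ∈ R', b.2 = false := fun h0 b hb =>
      hfl h0 b (Multiset.mem_cons_of_mem hb)
    have hsz' : ∀ b ∈ R', b.1 ≤ 2 * h + 1 := fun b hb => hsz b (Multiset.mem_cons_of_mem hb)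
    rw [Multiset.map_cons, Multiset.sum_cons, ← hd] at hsum
    have hτh : τ ≤ h := by omega
    rcases Nat.eq_zero_or_pos d with hd0 | hdpos
    · -- deficit zero
      rw [items_zero hτh (by omega) (fun t ht => (hT t ht).2)]
      refine packed_cons (ih (τ + 1) T R' (by omega) ?_ hTc hRc' hfl' hsz' (by omega) ?_) ?_
      · intro t ht
        have := hT t ht
        omega
      · intro b' hb' t ht htd x hx1 hx2
        have h1 := hbmax b' (Multiset.mem_cons_of_mem hb') (by
          have := hμle t ht
          omega)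
        omega
      · refine ⟨?_, ?_⟩
        · simp only [Multiset.insert_eq_cons, Multiset.sum_cons, Multiset.sum_singleton]
          omega
        · intro _ hcon
          have := congrArg Multiset.card hcon
          simp at this
    · -- positive deficit
      have hm : τ - d ∈ T := by
        rcases lt_or_ge (μ + d) τ with h1 | h1
        · exact hInv b hbR μ hμT h1 (τ - d) (by omega) (by omega)
        · have : τ - d = μ := by omega
          rw [this]
          exact hμT
      have hdτ : d ≤ τ := by omega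
      rw [items_pos hτh hdpos hdτ (fun t ht => (hT t ht).2) hm, ← add_assoc]
      have hτT : τ ∉ T.erase (τ - d) := by
        intro h'
        exact lt_irrefl _ (hT τ (Finset.mem_of_mem_erase h')).2
      refine packed_cons (ih (τ + 1) (insert τ (T.erase (τ - d))) R' (by omega) ?_ ?_ hRc' hfl'
        hsz' ?_ ?_) ?_
      · intro t ht
        rcases Finset.mem_insert.1 ht with rfl | ht
        · have := hT μ hμT
          omega
        · have := hT t (Finset.mem_of_mem_erase ht)
          omega
      · rw [Finset.card_insert_of_notMem hτT, Finset.card_erase_of_mem hm]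
        omega
      · rw [Finset.sum_insert hτT]
        have := Finset.add_sum_erase T (fun t => t) hm
        omega
      · intro b' hb' t ht htd x hx1 hx2
        have hμt : μ ≤ t := by
          rcases Finset.mem_insert.1 ht with rfl | ht
          · omega
          · exact hμle t (Finset.mem_of_mem_erase ht)
        have h1 := hbmax b' (Multiset.mem_cons_of_mem hb') (by omega)
        rw [Finset.mem_insert]
        rcases Nat.lt_or_ge x τ with hx | hx
        · right
          rw [Finset.mem_erase]
          refine ⟨by omega, ?_⟩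
          rcases lt_or_ge (μ + d) τ with h2 | h2
          · exact hInv b hbR μ hμT h2 x (by omega) hx
          · -- d = τ - μ
            have h3 : t ≠ μ := by
              rcases Finset.mem_insert.1 ht with rfl | ht
              · omega
              · intro h'
                have := (Finset.mem_erase.1 ht).1
                omega
            exact hInv b' (Multiset.mem_cons_of_mem hb') μ hμT (by omega) x (by omega) hx
        · left
          omega
      · by_cases hz : τ - d = 0
        · rw [if_pos hz]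
          have hs0 : s = 0 := by
            have := (hT _ hm).1
            omega
          refine ⟨?_, ?_⟩
          · simp only [add_zero, Multiset.sum_singleton]
            omega
          · intro hb2
            rw [hfl hs0 b hbR] at hb2
            exact absurd hb2 (by simp)
        · rw [if_neg hz]
          refine ⟨?_, ?_⟩
          · simp only [Multiset.sum_add, Multiset.sum_singleton]
            omega
          · intro _ hcon
            have := congrArg Multiset.card hcon
            simp at this

end Lifo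

theorem stLifo : StLifo := by
  intro s h E C B hs hsE hE hEh hF hC hcard hfl hsz hsum
  have h1 : Lifo.items h (E + 1) (Finset.Icc s E) = (Finset.Icc 1 (2 * h - E)).val := by
    unfold Lifo.items
    have e1 : (Finset.Icc (E + 1) h).val.map (fun t => 2 * h + 1 - t) =
        (Finset.Icc (h + 1) (2 * h - E)).val := by
      have : Finset.Icc (h + 1) (2 * h - E) =
          (Finset.Icc (E + 1) h).image (fun t => 2 * h + 1 - t) := by
        ext x
        simp only [Finset.mem_Icc, Finset.mem_image]
        constructor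
        · intro hx
          exact ⟨2 * h + 1 - x, by omega, by omega⟩
        · rintro ⟨t, ht, rfl⟩
          omega
      rw [this, Finset.image_val_of_injOn]
      intro x hx y hy hxy
      simp only [Finset.coe_Icc, Set.mem_Icc] at hx hy
      simp only at hxy
      omega
    have e2 : (Finset.Icc s E ∪ Finset.Icc (E + 1) h).erase 0 = Finset.Icc 1 h := by
      ext x
      simp only [Finset.mem_erase, Finset.mem_union, Finset.mem_Icc]
      omega
    have e3 : Finset.Icc 1 (2 * h - E) =
        (Finset.Icc (h + 1) (2 * h - E)).disjUnion (Finset.Icc 1 h) (by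
          rw [Finset.disjoint_left]
          intro x hx hy
          simp only [Finset.mem_Icc] at hx hy
          omega) := by
      ext x
      simp only [Finset.mem_disjUnion, Finset.mem_Icc]
      omega
    rw [e1, e2, e3]
    rfl
  rw [← h1]
  refine Lifo.key s h (E + 1 - s) C hs (by omega) hF ?_ (h - E) (E + 1) (Finset.Icc s E) B
    (by omega) ?_ ?_ ?_ hfl hsz hsum ?_
  · have : E + 1 - s + 1 = E + 2 - s := by omega
    rw [this]
    exact hC
  · intro t ht
    have := Finset.mem_Icc.1 ht
    omega
  · simp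
  · omega
  · intro b _ t ht _ x hx1 hx2
    have := Finset.mem_Icc.1 ht
    exact Finset.mem_Icc.2 ⟨by omega, by omega⟩

end Pool.Agent.Lib.MP_d51747_co.Paths
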