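import Mathlib
import Pool.Agent.Lib.MP_d51747_co.Paths.Stmts
import Pool.Agent.Lib.MP_d51747_co.Paths.Basic

set_option autoImplicit false

/-!
# Packing paths of all lengths `1, …, q`
-/

namespace Pool.Agent.Lib.MP_d51747_co.Paths

namespace Lists

lemma pe_le_el (x : List ℕ × Bool) : pe x.1 ≤ el x := by
  rcases x with ⟨l, c⟩
  cases c with
  | false => simp
  | true =>
    cases l with
    | nil => simp
    | cons a l =>
      rw [el_true]
      rcases List.eq_nil_or_concat (a :: l) with h4 | ⟨l', b, h4⟩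
      · simp at h4
      · show pe (a :: l) ≤ _
        rw [h4, List.concat_eq_append, List.append_assoc]
        show pe (l' ++ [b]) ≤ pe (l' ++ [b, a])
        rw [pe_concat]
        exact Multiset.le_cons_self _ _

/-- Cutting the elements along a packing of bins. -/
lemma assemble (hcut : StCut) (g : List ℕ × Bool → ℕ × Bool)
    (hg : ∀ x, g x = (x.1.length - 1, false) ∨ g x = (Multiset.card (el x), x.2)) (r : ℕ) :
    ∀ L : Multiset (List ℕ × Bool), (∀ x ∈ L, Ok x) →
    ∀ P : Multiset ((ℕ × Bool) × Multiset ℕ),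
      P.map Prod.fst = L.map g + Multiset.replicate r (0, false) →
      (∀ p ∈ P, Fits p.1 p.2) → 0 ∉ P.bind Prod.snd →
      ∃ Q : Multiset (List ℕ), (∀ l ∈ Q, l.Nodup) ∧
        Q.map List.length = (P.bind Prod.snd).map (· + 1) ∧ Q.bind pe ≤ L.bind el := by
  intro L
  induction L using Multiset.induction_on with
  | empty =>
    intro _ P hP hfit h0
    have h1 : P.bind Prod.snd = 0 := by
      rw [Multiset.eq_zero_iff_forall_notMem]
      intro t ht
      rw [Multiset.mem_bind] at ht
      obtain ⟨p, hp, htp⟩ := ht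
      have h2 : p.1 = (0, false) := by
        have h3 : p.1 ∈ P.map Prod.fst := Multiset.mem_map_of_mem _ hp
        rw [hP, Multiset.map_zero, zero_add] at h3
        exact Multiset.eq_of_mem_replicate h3
      have h4 := (hfit p hp).1
      rw [h2] at h4
      have h5 : t ≤ p.2.sum := Multiset.single_le_sum (fun _ _ => Nat.zero_le _) _ htp
      have h6 : t = 0 := by simp only at h4; omega
      apply h0
      rw [Multiset.mem_bind]
      exact ⟨p, hp, h6 ▸ htp⟩
    exact ⟨0, by simp, by simp [h1], by simp⟩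
  | cons x L ih =>
    intro hok P hP hfit h0
    rw [Multiset.map_cons, Multiset.cons_add] at hP
    obtain ⟨p, hp, hpx, hP'⟩ := (Multiset.map_eq_cons _ _ _ _).2 hP
    have hcons : P = p ::ₘ P.erase p := (Multiset.cons_erase hp).symm
    have hbind : P.bind Prod.snd = p.2 + (P.erase p).bind Prod.snd := by
      conv_lhs => rw [hcons]
      rw [Multiset.cons_bind]
    rw [hbind, Multiset.mem_add, not_or] at h0
    obtain ⟨Q', hQ1, hQ2, hQ3⟩ := ih (fun y hy => hok y (Multiset.mem_cons_of_mem hy)) (P.erase p)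
      hP' (fun p' hp' => hfit p' (Multiset.mem_of_mem_erase hp')) h0.2
    have hx : Ok x := hok x (Multiset.mem_cons_self _ _)
    obtain ⟨Q, hQ4, hQ5, hQ6⟩ : ∃ Q : Multiset (List ℕ), (∀ l ∈ Q, l.Nodup) ∧
        Q.map List.length = p.2.map (· + 1) ∧ Q.bind pe ≤ el x := by
      have hf := hfit p hp
      rw [hpx] at hf
      rcases hg x with h | h
      · rw [h] at hf
        obtain ⟨Q, h1, h2, h3⟩ := hcut (x.1, false) p.2 ⟨hx.1, hx.2.1, by simp⟩ h0.1 (by
          rw [el_false, card_pe]; exact hf)
        refine ⟨Q, h1, h2, h3.trans ?_⟩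
        rw [el_false]
        exact pe_le_el x
      · rw [h] at hf
        exact hcut x p.2 hx h0.1 hf
    refine ⟨Q + Q', ?_, ?_, ?_⟩
    · intro l hl
      rw [Multiset.mem_add] at hl
      rcases hl with hl | hl
      · exact hQ4 l hl
      · exact hQ1 l hl
    · rw [hbind, Multiset.map_add, Multiset.map_add, hQ5, hQ2]
    · rw [Multiset.add_bind, Multiset.cons_bind]
      exact add_le_add hQ6 hQ3

/-- From the multiset of lists to a function. -/
lemma choose_lists (E : Finset (Sym2 ℕ)) (q : ℕ) (Q : Multiset (List ℕ)) (h1 : ∀ l ∈ Q, l.Nodup)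
    (h2 : Q.map List.length = (Finset.Icc 1 q).val.map (· + 1)) (h3 : Q.bind pe ≤ E.val) :
    ∃ p : ℕ → List ℕ, (∀ i, 1 ≤ i → i ≤ q → (p i).Nodup ∧ (p i).length = i + 1 ∧
        ∀ e ∈ pe (p i), e ∈ E) ∧
      ∀ i j, 1 ≤ i → i ≤ q → 1 ≤ j → j ≤ q → i ≠ j → Disjoint (pe (p i)) (pe (p j)) := by
  have hex : ∀ i, ∃ l : List ℕ, 1 ≤ i → i ≤ q → l ∈ Q ∧ l.length = i + 1 := by
    intro i
    by_cases hi : 1 ≤ i ∧ i ≤ q
    · have h4 : i + 1 ∈ Q.map List.length := by
        rw [h2]
        exact Multiset.mem_map_of_mem _ (Finset.mem_Icc.2 hi)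
      obtain ⟨l, hl, hl2⟩ := Multiset.mem_map.1 h4
      exact ⟨l, fun _ _ => ⟨hl, hl2⟩⟩
    · exact ⟨[], fun h5 h6 => absurd ⟨h5, h6⟩ hi⟩
  choose p hp using hex
  refine ⟨p, fun i hi hiq => ⟨h1 _ (hp i hi hiq).1, (hp i hi hiq).2, fun e he => ?_⟩, ?_⟩
  · have h4 : e ∈ Q.bind pe := Multiset.mem_bind.2 ⟨p i, (hp i hi hiq).1, he⟩
    exact Multiset.mem_of_le h3 h4
  · intro i j hi hiq hj hjq hij
    obtain ⟨hpi, hli⟩ := hp i hi hiq
    obtain ⟨hpj, hlj⟩ := hp j hj hjq
    have hne : p j ≠ p i := by
      intro h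
      rw [h, hli] at hlj
      omega
    obtain ⟨Q1, hQ1⟩ := Multiset.exists_cons_of_mem hpi
    have hpj' : p j ∈ Q1 := by
      rw [hQ1, Multiset.mem_cons] at hpj
      exact hpj.resolve_left hne
    obtain ⟨Q2, hQ2⟩ := Multiset.exists_cons_of_mem hpj'
    have h5 : pe (p i) + pe (p j) ≤ E.val := by
      refine le_trans ?_ h3
      rw [hQ1, hQ2, Multiset.cons_bind, Multiset.cons_bind, ← add_assoc]
      exact Multiset.le_add_right _ _
    have h6 : (pe (p i) + pe (p j)).Nodup := Multiset.nodup_of_le h5 E.nodup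
    exact (Multiset.nodup_add.1 h6).2.2

/-- The final step: from a packing of bins to the lists. -/
lemma finish (hcut : StCut) (E : Finset (Sym2 ℕ)) (L : Multiset (List ℕ × Bool))
    (hok : ∀ x ∈ L, Ok x) (hle : L.bind el ≤ E.val) (g : List ℕ × Bool → ℕ × Bool)
    (hg : ∀ x, g x = (x.1.length - 1, false) ∨ g x = (Multiset.card (el x), x.2)) (r q : ℕ)
    (hP : Packed (L.map g + Multiset.replicate r (0, false)) (Finset.Icc 1 q).val) :
    ∃ p : ℕ → List ℕ, (∀ i, 1 ≤ i → i ≤ q → (p i).Nodup ∧ (p i).length = i + 1 ∧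
        ∀ e ∈ pe (p i), e ∈ E) ∧
      ∀ i j, 1 ≤ i → i ≤ q → 1 ≤ j → j ≤ q → i ≠ j → Disjoint (pe (p i)) (pe (p j)) := by
  obtain ⟨P, hP1, hP2, hP3⟩ := hP
  have hP2' : P.bind Prod.snd = (Finset.Icc 1 q).val := hP2
  obtain ⟨Q, hQ1, hQ2, hQ3⟩ := assemble hcut g hg r L hok P hP1 hP3 (by rw [hP2']; simp)
  rw [hP2'] at hQ2
  exact choose_lists E q Q hQ1 hQ2 (hQ3.trans hle)

lemma deficit (N : ℕ) (B : Multiset (ℕ × Bool)) (hB : ∀ b ∈ B, b.1 ≤ N) :
    (B.map fun b => N - b.1).sum + (B.map fun b => b.1).sum = Multiset.card B * N := by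
  induction B using Multiset.induction_on with
  | empty => simp
  | cons b B ih =>
    have h1 := ih fun x hx => hB x (Multiset.mem_cons_of_mem hx)
    have h2 := hB b (Multiset.mem_cons_self _ _)
    simp only [Multiset.map_cons, Multiset.sum_cons, Multiset.card_cons]
    rw [add_mul, one_mul, ← h1]
    omega

lemma card_bind_el (L : Multiset (List ℕ × Bool)) :
    Multiset.card (L.bind el) = (L.map fun x => Multiset.card (el x)).sum := by
  rw [Multiset.card_bind]
  rfl

lemma exists_edge {l : List ℕ} (hl : 2 ≤ l.length) {v : ℕ} (hv : v ∈ l) : ∃ e ∈ pe l, v ∈ e := by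
  induction l with
  | nil => simp at hv
  | cons a l ih =>
    cases l with
    | nil => simp at hl
    | cons b l =>
      rw [List.mem_cons] at hv
      rcases hv with rfl | hv
      · exact ⟨s(v, b), by simp, by simp⟩
      · cases l with
        | nil =>
          rw [List.mem_singleton] at hv
          subst hv
          exact ⟨s(a, v), by simp, by simp⟩
        | cons c l =>
          obtain ⟨e, he, hve⟩ := ih (by simp) hv
          exact ⟨e, by rw [pe_cons_cons]; exact Multiset.mem_cons_of_mem he, hve⟩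

lemma length_le {E : Finset (Sym2 ℕ)} {S : Finset ℕ} (hS : ∀ e ∈ E, ∀ v ∈ e, v ∈ S)
    {L : Multiset (List ℕ × Bool)} (hok : ∀ x ∈ L, Ok x) (hle : L.bind el ≤ E.val)
    {x : List ℕ × Bool} (hx : x ∈ L) : x.1.length ≤ S.card := by
  have h1 : x.1.toFinset ⊆ S := by
    intro v hv
    rw [List.mem_toFinset] at hv
    obtain ⟨e, he, hve⟩ := exists_edge (hok x hx).2.1 hv
    refine hS e ?_ v hve
    have h2 : e ∈ L.bind el := Multiset.mem_bind.2 ⟨x, hx, Multiset.mem_of_le (pe_le_el x) he⟩
    exact Multiset.mem_of_le hle h2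
  rw [← List.toFinset_card_of_nodup (hok x hx).1]
  exact Finset.card_le_card h1

lemma card_el_le (x : List ℕ × Bool) : Multiset.card (el x) ≤ x.1.length := by
  rcases x with ⟨l, c⟩
  cases c with
  | false => rw [card_el_false]; simp
  | true => rw [card_el_true]

lemma card_el_le' (x : List ℕ × Bool) : Multiset.card (el x) ≤ (x.1.length - 1) + 1 := by
  have := card_el_le x
  omega

/-- Instance `s = 0` of the bin packing. -/
lemma run0 (hfin : StFinal) (hlifo : StLifo) (h E : ℕ) (hE1 : 1 ≤ E) (hEh : E ≤ h)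
    (B : Multiset (ℕ × Bool)) (hB : Multiset.card B = h) (hflag : ∀ b ∈ B, b.2 = false)
    (hsize : ∀ b ∈ B, b.1 ≤ 2 * h + 1)
    (hdef : h * (2 * h + 1) ≤ (B.map fun b => b.1).sum + ((E + 1) * h + E / 2)) :
    Packed B (Finset.Icc 1 (2 * h - E)).val := by
  have hd := deficit (2 * h + 1) B hsize
  rw [hB] at hd
  have hgauss : (∑ t ∈ Finset.Icc 0 E, t) * 2 = (E + 1) * E := by
    have : Finset.Icc 0 E = Finset.range (E + 1) := by
      ext; simp
    rw [this, Finset.sum_range_id_mul_two]
    simp
  refine hlifo 0 h E ((E + 1) * ((E + 1) - 1) / 2 + (E + 1) * h + ((E + 1) - 1) / 2) B (by omega)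
    (by omega) hE1 hEh ?_ ?_ (by omega) (fun _ => hflag) hsize ?_
  · exact hfin.1 h (E + 1) (by omega)
  · have h1 : (E + 1) * ((E + 1) - 1) / 2 * 2 ≤ (E + 1) * ((E + 1) - 1) := Nat.div_mul_le_self _ _
    have h2 : ((E + 1) - 1) / 2 * 2 ≤ (E + 1) - 1 := Nat.div_mul_le_self _ _
    simp only [Nat.add_sub_cancel] at h1 h2 ⊢
    have h3 : (E + 1 - 0) = E + 1 := rfl
    have h4 : (E + 2 - 0) = E + 2 := rfl
    rw [h3, h4]
    nlinarith
  · have h1 : (E + 1) * E / 2 = ∑ t ∈ Finset.Icc 0 E, t := by
      rw [← hgauss, Nat.mul_div_cancel _ (by norm_num)]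
    simp only [Nat.add_sub_cancel]
    rw [h1]
    omega

/-- Instance `s = 1` of the bin packing. -/
lemma run1 (hfin : StFinal) (hlifo : StLifo) (h E : ℕ) (hE1 : 2 ≤ E) (hEh : E ≤ h)
    (B : Multiset (ℕ × Bool)) (hB : Multiset.card B + 1 = h)
    (hsize : ∀ b ∈ B, b.1 ≤ 2 * h + 1)
    (hdef : (h - 1) * (2 * h + 1) + 2 ≤ (B.map fun b => b.1).sum + E * h) :
    Packed B (Finset.Icc 1 (2 * h - E)).val := by
  have hd := deficit (2 * h + 1) B hsize
  have hB' : Multiset.card B = h - 1 := by omega
  rw [hB'] at hd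
  have hgauss : (∑ t ∈ Finset.Icc 1 E, t) * 2 = E * (E + 1) := by
    have h0 : (∑ t ∈ Finset.range (E + 1), t) = ∑ t ∈ Finset.Icc 1 E, t := by
      rw [Finset.range_eq_Ico, Finset.sum_eq_sum_Ico_succ_bot (by omega), zero_add]
      rfl
    rw [← h0, Finset.sum_range_id_mul_two]
    simp [mul_comm]
  have hge : 2 ≤ E * h := by nlinarith
  refine hlifo 1 h E (E * (E + 1) / 2 + E * h - 2) B (by omega)
    (by omega) (by omega) hEh ?_ ?_ hB (fun h0 => absurd h0 (by omega)) hsize ?_
  · have : E + 1 - 1 = E := by omega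
    rw [this]
    exact hfin.2 h E hE1
  · have h1 : E * (E + 1) / 2 * 2 ≤ E * (E + 1) := Nat.div_mul_le_self _ _
    have h3 : (E + 1 - 1) = E := by omega
    have h4 : (E + 2 - 1) = E + 1 := by omega
    rw [h3, h4]
    have h5 : 2 * (E * (E + 1) / 2 + E * h - 2) + 4 = 2 * (E * (E + 1) / 2 + E * h) := by omega
    nlinarith
  · have h1 : E * (E + 1) / 2 = ∑ t ∈ Finset.Icc 1 E, t := by
      rw [← hgauss, Nat.mul_div_cancel _ (by norm_num)]
    rw [h1]
    omega

lemma sum_le_of_forall {α : Type*} (L : Multiset α) (f g : α → ℕ) (h : ∀ x ∈ L, f x ≤ g x) :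
    (L.map f).sum ≤ (L.map g).sum :=
  Multiset.sum_map_le_sum_map _ _ h

lemma sum_add_card {α : Type*} (L : Multiset α) (g : α → ℕ) :
    (L.map fun x => g x + 1).sum = (L.map g).sum + Multiset.card L := by
  induction L using Multiset.induction_on with
  | empty => simp
  | cons a L ih => simp only [Multiset.map_cons, Multiset.sum_cons, Multiset.card_cons, ih]; omega

/-- A graph on `S` has at most `|S| (|S| - 1) / 2` edges. -/
lemma card_le_choose {E : Finset (Sym2 ℕ)} {S : Finset ℕ} (hE : ∀ e ∈ E, ¬ e.IsDiag)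
    (hS : ∀ e ∈ E, ∀ v ∈ e, v ∈ S) : E.card ≤ S.card.choose 2 := by
  rw [← Sym2.card_image_offDiag]
  apply Finset.card_le_card
  intro e he
  induction e using Sym2.ind with
  | _ x y =>
    rw [Finset.mem_image]
    refine ⟨(x, y), ?_, rfl⟩
    rw [Finset.mem_offDiag]
    refine ⟨hS _ he x (by simp), hS _ he y (by simp), ?_⟩
    intro hxy
    apply hE _ he
    exact Sym2.mk_isDiag_iff.2 hxy

/-- Case (i): the complete graph of odd order. -/
lemma case_complete (hlov : StLov) (hcut : StCut) (E : Finset (Sym2 ℕ)) (S : Finset ℕ)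
    (hE : ∀ e ∈ E, ¬ e.IsDiag) (hS : ∀ e ∈ E, ∀ v ∈ e, v ∈ S) (h : ℕ) (hn : S.card = 2 * h + 1)
    (hc : 2 * h * S.card ≤ 2 * E.card) :
    ∃ p : ℕ → List ℕ, (∀ i, 1 ≤ i → i ≤ 2 * h → (p i).Nodup ∧ (p i).length = i + 1 ∧
        ∀ e ∈ pe (p i), e ∈ E) ∧
      ∀ i j, 1 ≤ i → i ≤ 2 * h → 1 ≤ j → j ≤ 2 * h → i ≠ j →
        Disjoint (pe (p i)) (pe (p j)) := by
  obtain ⟨L, hL, hcard⟩ := hlov E S hE hS
  have hle : L.bind el ≤ E.val := le_of_eq hL.2
  have hEc : E.card = (L.map fun x => Multiset.card (el x)).sum := by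
    rw [← card_bind_el, hL.2]; rfl
  have hxle : ∀ x ∈ L, Multiset.card (el x) ≤ S.card := fun x hx =>
    (card_el_le x).trans (length_le hS hL.1 hle hx)
  have hLh : Multiset.card L ≤ h := by omega
  have hbound : ∀ L' : Multiset (List ℕ × Bool), (∀ x ∈ L', Multiset.card (el x) ≤ S.card) →
      (L'.map fun x => Multiset.card (el x)).sum ≤ Multiset.card L' * S.card := by
    intro L' hL'
    have := sum_le_of_forall L' (fun x => Multiset.card (el x)) (fun _ => S.card) hL'
    simpa using this
  have hall : ∀ x ∈ L, Multiset.card (el x) = S.card := by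
    intro x hx
    obtain ⟨L', hL'⟩ := Multiset.exists_cons_of_mem hx
    have h1 := hbound L' fun y hy => hxle y (by rw [hL']; exact Multiset.mem_cons_of_mem hy)
    have h2 := hxle x hx
    rw [hL', Multiset.map_cons, Multiset.sum_cons] at hEc
    rw [hL', Multiset.card_cons] at hLh
    by_contra hne
    have h3 : Multiset.card (el x) + 1 ≤ S.card := by omega
    have h4 : (Multiset.card L' + 1) * S.card ≤ h * S.card := Nat.mul_le_mul_right _ hLh
    have h5 : 2 * h * S.card = 2 * (h * S.card) := by ring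
    rw [add_mul, one_mul] at h4
    omega
  have hLh' : Multiset.card L = h := by
    by_contra hne
    have h1 := hbound L hxle
    have h2 : Multiset.card L + 1 ≤ h := by omega
    have h4 : (Multiset.card L + 1) * S.card ≤ h * S.card := Nat.mul_le_mul_right _ h2
    have h5 : 2 * h * S.card = 2 * (h * S.card) := by ring
    rw [add_mul, one_mul] at h4
    omega
  have hflag : ∀ x ∈ L, x.2 = true := by
    intro x hx
    by_contra hx2
    have hx3 : x.2 = false := by simpa using hx2
    have h1 := hall x hx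
    have h2 := length_le hS hL.1 hle hx
    have h3 := (hL.1 x hx).2.1
    have h4 : Multiset.card (el x) = x.1.length - 1 := by
      rcases x with ⟨l, c⟩
      simp only at hx3
      subst hx3
      rw [card_el_false]
    omega
  refine finish hcut E L hL.1 hle (fun x => (Multiset.card (el x), x.2)) (fun x => Or.inr rfl) 0
    (2 * h) ?_
  have hB : L.map (fun x => (Multiset.card (el x), x.2)) = Multiset.replicate h (S.card, true) := by
    rw [Multiset.eq_replicate]
    refine ⟨by rw [Multiset.card_map, hLh'], fun b hb => ?_⟩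
    obtain ⟨x, hx, rfl⟩ := Multiset.mem_map.1 hb
    rw [hall x hx, hflag x hx]
  rw [hB, Multiset.replicate_zero, add_zero]
  refine ⟨(Multiset.range h).map fun t => ((S.card, true), {t + 1, 2 * h - t}), ?_, ?_, ?_⟩
  · rw [Multiset.map_map]
    rw [Multiset.eq_replicate]
    refine ⟨by simp, fun b hb => ?_⟩
    obtain ⟨t, _, rfl⟩ := Multiset.mem_map.1 hb
    rfl
  · rw [Multiset.map_map]
    show ((Multiset.range h).map fun t => ({t + 1, 2 * h - t} : Multiset ℕ)).sum = _
    have key : ∀ k, k ≤ h → ((Multiset.range k).map fun t => ({t + 1, 2 * h - t} : Multiset ℕ)).sum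
        = (Finset.Icc 1 k ∪ Finset.Icc (2 * h + 1 - k) (2 * h)).val := by
      intro k
      induction k with
      | zero =>
        intro _
        simp
      | succ k ih =>
        intro hk
        rw [Multiset.range_succ, Multiset.map_cons, Multiset.sum_cons, ih (by omega)]
        have e1 : Finset.Icc 1 (k + 1) ∪ Finset.Icc (2 * h + 1 - (k + 1)) (2 * h) =
            insert (k + 1) (insert (2 * h - k)
              (Finset.Icc 1 k ∪ Finset.Icc (2 * h + 1 - k) (2 * h))) := by
          ext t
          simp only [Finset.mem_union, Finset.mem_Icc, Finset.mem_insert]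
          omega
        rw [e1, Finset.insert_val_of_notMem, Finset.insert_val_of_notMem]
        · rfl
        · simp only [Finset.mem_union, Finset.mem_Icc]
          omega
        · simp only [Finset.mem_union, Finset.mem_Icc, Finset.mem_insert]
          omega
    rw [key h le_rfl]
    congr 1
    ext t
    simp only [Finset.mem_union, Finset.mem_Icc]
    omega
  · intro p hp
    obtain ⟨t, ht, rfl⟩ := Multiset.mem_map.1 hp
    rw [Multiset.mem_range] at ht
    refine ⟨?_, fun _ => ?_⟩
    · show ({t + 1, 2 * h - t} : Multiset ℕ).sum ≤ S.card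
      have : ({t + 1, 2 * h - t} : Multiset ℕ).sum = (t + 1) + (2 * h - t) := by
        rw [Multiset.insert_eq_cons, Multiset.sum_cons, Multiset.sum_singleton]
      rw [this]
      omega
    · intro h1
      have := congrArg Multiset.card h1
      simp at this

/-- Cases (ii) and (iii): no cycle bins. -/
lemma case_zero (hfin : StFinal) (hlifo : StLifo) (hcut : StCut) (E : Finset (Sym2 ℕ))
    (S : Finset ℕ) (hS : ∀ e ∈ E, ∀ v ∈ e, v ∈ S) (h D : ℕ) (hD1 : 1 ≤ D) (hDh : D ≤ h)
    (hn : S.card ≤ 2 * h + 1) (L : Multiset (List ℕ × Bool)) (hL : Dec L E.val)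
    (hcard : Multiset.card L ≤ h)
    (hsum : h * (2 * h + 1) ≤ (L.map fun x => x.1.length - 1).sum + ((D + 1) * h + D / 2)) :
    ∃ p : ℕ → List ℕ, (∀ i, 1 ≤ i → i ≤ 2 * h - D → (p i).Nodup ∧ (p i).length = i + 1 ∧
        ∀ e ∈ pe (p i), e ∈ E) ∧
      ∀ i j, 1 ≤ i → i ≤ 2 * h - D → 1 ≤ j → j ≤ 2 * h - D → i ≠ j →
        Disjoint (pe (p i)) (pe (p j)) := by
  have hle : L.bind el ≤ E.val := le_of_eq hL.2
  refine finish hcut E L hL.1 hle (fun x => (x.1.length - 1, false)) (fun x => Or.inl rfl)
    (h - Multiset.card L) (2 * h - D) ?_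
  refine run0 hfin hlifo h D hD1 hDh _ ?_ ?_ ?_ ?_
  · simp; omega
  · intro b hb
    rw [Multiset.mem_add] at hb
    rcases hb with hb | hb
    · obtain ⟨x, hx, rfl⟩ := Multiset.mem_map.1 hb
      rfl
    · rw [Multiset.eq_of_mem_replicate hb]
  · intro b hb
    rw [Multiset.mem_add] at hb
    rcases hb with hb | hb
    · obtain ⟨x, hx, rfl⟩ := Multiset.mem_map.1 hb
      have := length_le hS hL.1 hle hx
      simp only
      omega
    · rw [Multiset.eq_of_mem_replicate hb]
      simp
  · rw [Multiset.map_add, Multiset.sum_add, Multiset.map_map, Multiset.map_replicate,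
      Multiset.sum_replicate]
    simp only [Function.comp_def, smul_zero, add_zero]
    exact hsum

/-- Case (iv). -/
lemma case_one (hfin : StFinal) (hlifo : StLifo) (hcut : StCut) (E : Finset (Sym2 ℕ))
    (S : Finset ℕ) (hS : ∀ e ∈ E, ∀ v ∈ e, v ∈ S) (h D : ℕ) (hD1 : 2 ≤ D) (hDh : D ≤ h)
    (hn : S.card ≤ 2 * h + 1) (L : Multiset (List ℕ × Bool)) (hok : ∀ x ∈ L, Ok x)
    (hle : L.bind el ≤ E.val)
    (hcard : Multiset.card L + 1 ≤ h)
    (hsum : (h - 1) * (2 * h + 1) + 2 ≤ Multiset.card (L.bind el) + D * h) :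
    ∃ p : ℕ → List ℕ, (∀ i, 1 ≤ i → i ≤ 2 * h - D → (p i).Nodup ∧ (p i).length = i + 1 ∧
        ∀ e ∈ pe (p i), e ∈ E) ∧
      ∀ i j, 1 ≤ i → i ≤ 2 * h - D → 1 ≤ j → j ≤ 2 * h - D → i ≠ j →
        Disjoint (pe (p i)) (pe (p j)) := by
  refine finish hcut E L hok hle (fun x => (Multiset.card (el x), x.2)) (fun x => Or.inr rfl)
    (h - 1 - Multiset.card L) (2 * h - D) ?_
  refine run1 hfin hlifo h D hD1 hDh _ ?_ ?_ ?_
  · simp; omega
  · intro b hb
    rw [Multiset.mem_add] at hb
    rcases hb with hb | hb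
    · obtain ⟨x, hx, rfl⟩ := Multiset.mem_map.1 hb
      have h1 := length_le hS hok hle hx
      have h2 := card_el_le x
      simp only
      omega
    · rw [Multiset.eq_of_mem_replicate hb]
      simp
  · rw [Multiset.map_add, Multiset.sum_add, Multiset.map_map, Multiset.map_replicate,
      Multiset.sum_replicate]
    simp only [Function.comp_def, smul_zero, add_zero]
    rw [← card_bind_el]
    exact hsum

end Lists

/-- Paths of all lengths `1, …, q` pack. -/
theorem stLists (hlov : StLov) (hlov2 : StLov2) (hall : StAllPaths)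
    (hmatch : StMatch) (hfin : StFinal) (hlifo : StLifo) (hcut : StCut) : StLists := by
  intro E S q hE hS hS0 hq hSq hq1
  have hch := Lists.card_le_choose hE hS
  have hch2 : 2 * E.card ≤ S.card * (S.card - 1) := by
    rw [Nat.choose_two_right] at hch
    have := Nat.div_mul_le_self (S.card * (S.card - 1)) 2
    omega
  have hqn : q ≤ S.card - 1 := by
    have h1 : q * S.card ≤ (S.card - 1) * S.card := by
      rw [mul_comm (S.card - 1)]; exact hq.trans hch2
    exact Nat.le_of_mul_le_mul_right h1 hS0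
  rcases Nat.even_or_odd' S.card with ⟨h, hn | hn⟩
  · -- even order
    obtain ⟨D, hD⟩ : ∃ D, D = S.card - q := ⟨_, rfl⟩
    have hqD : q = 2 * h - D := by omega
    have hEq : h * q ≤ E.card := by
      rw [hn] at hq
      have : q * (2 * h) = 2 * (h * q) := by ring
      omega
    have hsplit : h * q + D * h = 2 * h * h := by
      rw [mul_comm D h, ← mul_add]
      have : q + D = 2 * h := by omega
      rw [this]; ring
    by_cases hodd : ∀ v ∈ S, Odd (dg E.val v)
    · obtain ⟨L, hL, hcard⟩ := hlov E S hE hS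
      have hpaths := hall L E.val S hL hodd hcard
      rw [hqD]
      refine Lists.case_zero hfin hlifo hcut E S hS h D (by omega) (by omega) (by omega) L hL
        (by omega) ?_
      have h1 : (L.map fun x => x.1.length - 1).sum = E.card := by
        have h2 : (L.map fun x => x.1.length - 1) = L.map fun x => Multiset.card (el x) := by
          apply Multiset.map_congr rfl
          intro x hx
          have h3 := hpaths x hx
          rcases x with ⟨l, c⟩
          simp only at h3
          subst h3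
          rw [card_el_false]
        rw [h2, ← Lists.card_bind_el, hL.2]
        rfl
      rw [h1]
      have h4 : h * (2 * h + 1) = 2 * h * h + h := by ring
      have h5 : (D + 1) * h = D * h + h := by ring
      omega
    · push Not at hodd
      obtain ⟨v, hv, hev⟩ := hodd
      rw [Nat.not_odd_iff_even] at hev
      have hD2 : 2 ≤ D := by
        by_contra hlt
        have hD1 : D = 1 := by omega
        have hq' : q = S.card - 1 := by omega
        -- complete graph: every vertex has degree `|S| - 1`, odd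
        have hcomplete : E.card = S.card.choose 2 := by
          apply le_antisymm hch
          rw [Nat.choose_two_right]
          apply Nat.div_le_of_le_mul
          rw [hq', mul_comm] at hq
          exact hq
        have hEeq : E = S.offDiag.image Sym2.mk.uncurry := by
          apply Finset.eq_of_subset_of_card_le
          · intro e he
            induction e using Sym2.ind with
            | _ x y =>
              rw [Finset.mem_image]
              refine ⟨(x, y), ?_, rfl⟩
              rw [Finset.mem_offDiag]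
              refine ⟨hS _ he x (by simp), hS _ he y (by simp), ?_⟩
              intro hxy
              apply hE _ he
              exact Sym2.mk_isDiag_iff.2 hxy
          · rw [Sym2.card_image_offDiag, hcomplete]
        have hdeg : dg E.val v = S.card - 1 := by
          have h1 : dg E.val v = (E.filter fun e => v ∈ e).card := by
            unfold dg
            rw [Multiset.countP_eq_card_filter]
            rfl
          have h2 : (E.filter fun e => v ∈ e) = (S.erase v).image fun y => s(v, y) := by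
            ext e
            induction e using Sym2.ind with
            | _ x y =>
              simp only [Finset.mem_filter, Finset.mem_image, Finset.mem_erase]
              constructor
              · rintro ⟨h3, h4⟩
                have hxy : x ≠ y := fun h5 => hE _ h3 (Sym2.mk_isDiag_iff.2 h5)
                have hxS := hS _ h3 x (by simp)
                have hyS := hS _ h3 y (by simp)
                rcases Sym2.mem_iff.1 h4 with rfl | rfl
                · exact ⟨y, ⟨hxy.symm, hyS⟩, rfl⟩
                · exact ⟨x, ⟨hxy, hxS⟩, Sym2.eq_swap⟩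
              · rintro ⟨z, ⟨hz1, hz2⟩, h6⟩
                rw [← h6]
                refine ⟨?_, by simp⟩
                rw [hEeq, Finset.mem_image]
                exact ⟨(v, z), Finset.mem_offDiag.2 ⟨hv, hz2, hz1.symm⟩, rfl⟩
          rw [h1, h2, Finset.card_image_of_injective _ (fun x y h => Sym2.congr_right.1 h),
            Finset.card_erase_of_mem hv]
        rw [hdeg, hn] at hev
        obtain ⟨r, hr⟩ := hev
        omega
      obtain ⟨a, ha, F, hF, hFc, hFe⟩ := hmatch E S h hE hS hn ⟨v, hv, hev⟩
      have hE' : ∀ e ∈ E \ F, ¬ e.IsDiag := fun e he => hE e (Finset.mem_sdiff.1 he).1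
      have hS' : ∀ e ∈ E \ F, ∀ v ∈ e, v ∈ S := fun e he => hS e (Finset.mem_sdiff.1 he).1
      obtain ⟨L, hL, hcard⟩ := hlov2 (E \ F) S a hE' hS' ha hFe
      have hle : L.bind el ≤ E.val := by
        rw [hL.2]
        exact Finset.val_le_iff.2 Finset.sdiff_subset
      have hcEF : Multiset.card (L.bind el) = E.card - F.card := by
        rw [hL.2]
        show (E \ F).card = _
        rw [Finset.card_sdiff_of_subset hF]
      have hFE : F.card ≤ E.card := Finset.card_le_card hF
      rw [hqD]
      refine Lists.case_one hfin hlifo hcut E S hS h D hD2 (by omega) (by omega) L hL.1 hle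
        (by omega) ?_
      rw [hcEF]
      obtain ⟨h', rfl⟩ : ∃ h', h = h' + 1 := ⟨h - 1, by omega⟩
      have h4 : (h' + 1 - 1) * (2 * (h' + 1) + 1) + (h' + 2) = 2 * (h' + 1) * (h' + 1) := by
        simp only [Nat.add_sub_cancel]; ring
      omega
  · -- odd order
    rcases Nat.lt_or_ge q (S.card - 1) with hlt | hge
    · obtain ⟨D, hD⟩ : ∃ D, D = S.card - 1 - q := ⟨_, rfl⟩
      have hqD : q = 2 * h - D := by omega
      obtain ⟨L, hL, hcard⟩ := hlov E S hE hS
      rw [hqD]
      refine Lists.case_zero hfin hlifo hcut E S hS h D (by omega) (by omega) (by omega) L hL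
        (by omega) ?_
      have h1 : E.card ≤ (L.map fun x => x.1.length - 1).sum + Multiset.card L := by
        have h2 : E.card = (L.map fun x => Multiset.card (el x)).sum := by
          rw [← Lists.card_bind_el, hL.2]; rfl
        rw [h2, ← Lists.sum_add_card]
        exact Lists.sum_le_of_forall _ _ _ fun x _ => Lists.card_el_le' x
      have h3 : q * S.card + (D * (2 * h) + D) = 2 * (h * (2 * h + 1)) := by
        rw [hn]
        have : q + D = 2 * h := by omega
        calc q * (2 * h + 1) + (D * (2 * h) + D) = (q + D) * (2 * h + 1) := by ring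
          _ = _ := by rw [this]; ring
      have h4 : (D + 1) * h = D * h + h := by ring
      have h5 : D * (2 * h) = 2 * (D * h) := by ring
      omega
    · have hq' : q = 2 * h := by omega
      rw [hq']
      exact Lists.case_complete hlov hcut E S hE hS h hn (by rw [← hq']; exact hq)

end Pool.Agent.Lib.MP_d51747_co.Paths
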