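import Mathlib
import Pool.Agent.Lib.MP_d51747_co.Paths.Stmts
import Pool.Agent.Lib.MP_d51747_co.Paths.Basic

set_option autoImplicit false

/-!
# Lovász' theorem on decompositions into paths and cycles
-/

namespace Pool.Agent.Lib.MP_d51747_co.Paths

namespace Lov

lemma dg_add (A B : Multiset (Sym2 ℕ)) (v : ℕ) : dg (A + B) v = dg A v + dg B v :=
  Multiset.countP_add _ _ _

lemma dg_cons (e : Sym2 ℕ) (A : Multiset (Sym2 ℕ)) (v : ℕ) :
    dg (e ::ₘ A) v = dg A v + if v ∈ e then 1 else 0 := Multiset.countP_cons _ _ _

lemma star_inj (a : ℕ) : Function.Injective (fun x : ℕ => s(a, x)) := fun x y h => by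
  rcases Sym2.eq_iff.1 h with h | h
  · exact h.2
  · exact h.2.trans h.1

lemma dg_star {a v : ℕ} (hva : v ≠ a) (X : Finset ℕ) :
    dg (X.val.map (fun x => s(a, x))) v = if v ∈ X then 1 else 0 := by
  unfold dg
  rw [Multiset.countP_map]
  have h1 : X.val.filter (fun x => v ∈ s(a, x)) = X.val.filter (fun x => v = x) :=
    Multiset.filter_congr fun x _ => by
      rw [Sym2.mem_iff]
      constructor
      · rintro (h | h)
        · exact absurd h hva
        · exact h
      · exact Or.inr
  rw [h1, ← Multiset.countP_eq_card_filter]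
  have h2 : Multiset.countP (fun x => v = x) X.val = Multiset.count v X.val := rfl
  rw [h2]
  split_ifs with h
  · exact Multiset.count_eq_one_of_mem X.nodup h
  · exact Multiset.count_eq_zero_of_notMem h

lemma ne_of_edge {E : Finset (Sym2 ℕ)} (hE : ∀ e ∈ E, ¬ e.IsDiag) {a v : ℕ} (h : s(a, v) ∈ E) :
    v ≠ a := by
  rintro rfl
  exact hE _ h rfl

lemma dg_pos {E : Finset (Sym2 ℕ)} {a v : ℕ} (h : s(a, v) ∈ E) : 0 < dg E.val v := by
  unfold dg
  rw [Multiset.countP_pos]
  exact ⟨_, h, Sym2.mem_mk_right a v⟩

/-- the star of `a` at `X` -/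
def star (a : ℕ) (X : Finset ℕ) : Finset (Sym2 ℕ) := X.image fun x => s(a, x)

lemma star_val (a : ℕ) (X : Finset ℕ) : (star a X).val = X.val.map fun x => s(a, x) := by
  unfold star
  exact Finset.image_val_of_injOn (star_inj a).injOn

lemma sdiff_star {E : Finset (Sym2 ℕ)} {a : ℕ} {X : Finset ℕ} (h : ∀ x ∈ X, s(a, x) ∈ E) :
    (E \ star a X).val + X.val.map (fun x => s(a, x)) = E.val := by
  rw [← star_val, Finset.sdiff_val]
  refine tsub_add_cancel_of_le ?_
  rw [Finset.val_le_iff]
  intro e he
  obtain ⟨x, hx, rfl⟩ := Finset.mem_image.1 he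
  exact h x hx

lemma dg_sdiff_star {E : Finset (Sym2 ℕ)} {a v : ℕ} {X : Finset ℕ} (h : ∀ x ∈ X, s(a, x) ∈ E)
    (hva : v ≠ a) : dg (E \ star a X).val v + (if v ∈ X then 1 else 0) = dg E.val v := by
  conv_rhs => rw [← sdiff_star h]
  rw [dg_add, dg_star hva]

/-- adding the edges of a star -/
lemma add_star (hsw : StSwitch) (hend : StEnd) {E : Finset (Sym2 ℕ)} {a : ℕ} {X : Finset ℕ}
    {L : Multiset (List ℕ × Bool)} (hE : ∀ e ∈ E, ¬ e.IsDiag) (hX : ∀ x ∈ X, s(a, x) ∈ E)
    (hL : Dec L (E \ star a X).val)
    (hodd : ∀ v, s(a, v) ∈ E → Odd (dg (E \ star a X).val v)) :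
    ∃ L' : Multiset (List ℕ × Bool), Multiset.card L' = Multiset.card L ∧ Dec L' E.val := by
  refine hsw E a X L hE hL.1 ?_ fun v hv => hend L _ v hL (hodd v hv)
  rw [hL.2, sdiff_star hX]

/-- the edge as a path with one edge -/
noncomputable def single (e : Sym2 ℕ) : List ℕ × Bool := ([(Quot.out e).1, (Quot.out e).2], false)

lemma el_single (e : Sym2 ℕ) : el (single e) = {e} := by
  unfold single
  rw [el_false, pe_cons_cons, pe_single]
  have h : s((Quot.out e).1, (Quot.out e).2) = e := Quot.out_eq e
  rw [h]
  rfl

lemma ok_single {e : Sym2 ℕ} (he : ¬ e.IsDiag) : Ok (single e) := by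
  have h : s((Quot.out e).1, (Quot.out e).2) = e := Quot.out_eq e
  have h1 : (Quot.out e).1 ≠ (Quot.out e).2 := by
    intro h1
    apply he
    rw [← h, h1]
    rfl
  refine ⟨by simp [single, h1], by simp [single], by simp [single]⟩

lemma dec_single {E : Finset (Sym2 ℕ)} (hE : ∀ e ∈ E, ¬ e.IsDiag) :
    Dec (E.val.map single) E.val := by
  refine ⟨fun x hx => ?_, ?_⟩
  · obtain ⟨e, he, rfl⟩ := Multiset.mem_map.1 hx
    exact ok_single (hE e he)
  · rw [Multiset.bind_map]
    have : ∀ M : Multiset (Sym2 ℕ), (M.bind fun e => el (single e)) = M := by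
      intro M
      induction M using Multiset.induction_on with
      | empty => rfl
      | cons e M ih => rw [Multiset.cons_bind, ih, el_single]; rfl
    exact this _

/-- two neighbours of a vertex of degree at least two -/
lemma two_nbrs {E : Finset (Sym2 ℕ)} {a : ℕ} (h : 2 ≤ dg E.val a) :
    ∃ y b, y ≠ b ∧ s(a, y) ∈ E ∧ s(a, b) ∈ E := by
  have h1 : dg E.val a = (E.filter fun e => a ∈ e).card := by
    unfold dg
    rw [Multiset.countP_eq_card_filter]
    rfl
  rw [h1] at h
  obtain ⟨e1, he1, e2, he2, hne⟩ := Finset.one_lt_card.1 h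
  rw [Finset.mem_filter] at he1 he2
  obtain ⟨y, rfl⟩ := he1.2
  obtain ⟨b, rfl⟩ := he2.2
  exact ⟨y, b, fun h => hne (by rw [h]), he1.1, he2.1⟩

end Lov

open Lov

theorem stLov (hsw : StSwitch) (hend : StEnd) (hhand : StHand) : StLov := by
  intro E
  induction' hn : E.card using Nat.strong_induction_on with n ih generalizing E
  intro S hE hS
  by_cases hA : ∃ a x, s(a, x) ∈ E ∧ Even (dg E.val x)
  · -- Case A
    obtain ⟨a, x, hax, hx⟩ := hA
    set X := S.filter fun y => s(a, y) ∈ E ∧ Even (dg E.val y) with hX
    have hXE : ∀ y ∈ X, s(a, y) ∈ E := fun y hy => (Finset.mem_filter.1 hy).2.1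
    have hxX : x ∈ X := Finset.mem_filter.2 ⟨hS _ hax x (Sym2.mem_mk_right a x), hax, hx⟩
    have hlt : (E \ star a X).card < n := by
      rw [← hn]
      refine Finset.card_lt_card (Finset.ssubset_iff_subset_ne.2 ⟨Finset.sdiff_subset, fun h => ?_⟩)
      have h1 : s(a, x) ∈ E \ star a X := by rw [h]; exact hax
      exact (Finset.mem_sdiff.1 h1).2 (Finset.mem_image.2 ⟨x, hxX, rfl⟩)
    obtain ⟨L, hL, hc⟩ := ih _ hlt (E \ star a X) rfl S
      (fun e he => hE e (Finset.mem_sdiff.1 he).1) (fun e he => hS e (Finset.mem_sdiff.1 he).1)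
    obtain ⟨L', hc', hL'⟩ := add_star hsw hend hE hXE hL (fun v hv => by
      have hva := ne_of_edge hE hv
      have h1 := dg_sdiff_star hXE hva
      have h2 := dg_pos hv
      by_cases hvX : v ∈ X
      · rw [if_pos hvX] at h1
        have h3 : Even (dg E.val v) := (Finset.mem_filter.1 hvX).2.2
        rw [Nat.even_iff] at h3
        rw [Nat.odd_iff]
        omega
      · rw [if_neg hvX] at h1
        have h3 : ¬ Even (dg E.val v) := fun h3 =>
          hvX (Finset.mem_filter.2 ⟨hS _ hv v (Sym2.mem_mk_right a v), hv, h3⟩)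
        rw [Nat.even_iff] at h3
        rw [Nat.odd_iff]
        omega)
    exact ⟨L', hL', by rw [hc']; exact hc⟩
  · push Not at hA
    have hodd : ∀ a x, s(a, x) ∈ E → Odd (dg E.val x) := fun a x h =>
      Nat.not_even_iff_odd.1 (hA a x h)
    by_cases hB : ∀ v ∈ S, dg E.val v ≤ 1
    · -- Case B1
      refine ⟨E.val.map single, dec_single hE, ?_⟩
      rw [Multiset.card_map]
      have h1 := (hhand E S hE hS).1
      have h2 : ∑ v ∈ S, dg E.val v ≤ S.card := by
        calc ∑ v ∈ S, dg E.val v ≤ ∑ v ∈ S, 1 := Finset.sum_le_sum hB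
          _ = S.card := by simp
      have h3 : Multiset.card E.val = E.card := rfl
      omega
    · -- Case B2
      push Not at hB
      obtain ⟨a, haS, ha⟩ := hB
      obtain ⟨y, b, hyb, hay, hab⟩ := two_nbrs (show 2 ≤ dg E.val a by omega)
      set S' := S.filter fun v => Odd (dg E.val v) with hS'
      have hev : Even S'.card := (hhand E S hE hS).2
      have hcov : ∀ e ∈ E, ∀ v ∈ e, v ∈ S' := by
        intro e he v hv
        obtain ⟨w, rfl⟩ := hv
        refine Finset.mem_filter.2 ⟨hS _ he v (Sym2.mem_mk_left v w), ?_⟩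
        exact hodd w v (by rw [Sym2.eq_swap]; exact he)
      obtain ⟨u, hu⟩ := Infinite.exists_notMem_finset S'
      have hya : y ≠ a := ne_of_edge hE hay
      have hba : b ≠ a := ne_of_edge hE hab
      have haS' : a ∈ S' := hcov _ hay a (Sym2.mem_mk_left a y)
      have hyS' : y ∈ S' := hcov _ hay y (Sym2.mem_mk_right a y)
      have hbS' : b ∈ S' := hcov _ hab b (Sym2.mem_mk_right a b)
      have hua : u ≠ a := fun h => hu (h ▸ haS')
      have huy : u ≠ y := fun h => hu (h ▸ hyS')
      have hub : u ≠ b := fun h => hu (h ▸ hbS')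
      have huE : ∀ e ∈ E, u ∉ e := fun e he hue => hu (hcov e he u hue)
      set E0 := E.erase s(a, y) with hE0
      have hE0E : E.val = s(a, y) ::ₘ E0.val := by
        rw [hE0, Finset.erase_val, Multiset.cons_erase hay]
      have hun : s(u, y) ∉ E0 := fun h => huE _ (Finset.mem_of_mem_erase h) (Sym2.mem_mk_left u y)
      set E1 := insert s(u, y) E0 with hE1
      have hE1v : E1.val = s(u, y) ::ₘ E0.val := by
        rw [hE1, Finset.insert_val_of_notMem hun]
      have hab1 : s(a, b) ∈ E1 := by
        rw [hE1]
        refine Finset.mem_insert_of_mem (Finset.mem_erase.2 ⟨fun h => hyb ?_, hab⟩)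
        exact (star_inj a h).symm
      set E2 := E1.erase s(a, b) with hE2
      have hE2v : E1.val = s(a, b) ::ₘ E2.val := by
        rw [hE2, Finset.erase_val, Multiset.cons_erase hab1]
      -- degrees
      have hd0 : ∀ v, dg E.val v = dg E0.val v + if v ∈ s(a, y) then 1 else 0 := fun v => by
        rw [hE0E, dg_cons]
      have hd1 : ∀ v, dg E1.val v = dg E0.val v + if v ∈ s(u, y) then 1 else 0 := fun v => by
        rw [hE1v, dg_cons]
      have hd2 : ∀ v, dg E1.val v = dg E2.val v + if v ∈ s(a, b) then 1 else 0 := fun v => by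
        rw [hE2v, dg_cons]
      have hdu : dg E.val u = 0 := by
        unfold dg
        rw [Multiset.countP_eq_zero]
        exact fun e he => huE e he
      have hm : ∀ v p q : ℕ, (v ∈ s(p, q)) ↔ v = p ∨ v = q := fun v p q => Sym2.mem_iff
      have hcard : E2.card < n := by
        have h1 : Multiset.card E.val = Multiset.card E0.val + 1 := by
          rw [hE0E, Multiset.card_cons]
        have h2 : Multiset.card E1.val = Multiset.card E0.val + 1 := by
          rw [hE1v, Multiset.card_cons]
        have h3 : Multiset.card E1.val = Multiset.card E2.val + 1 := by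
          rw [hE2v, Multiset.card_cons]
        have h4 : E.card = Multiset.card E.val := rfl
        have h5 : E2.card = Multiset.card E2.val := rfl
        omega
      have hE1d : ∀ e ∈ E1, ¬ e.IsDiag := by
        intro e he
        rcases Finset.mem_insert.1 he with rfl | he
        · exact huy
        · exact hE e (Finset.mem_of_mem_erase he)
      obtain ⟨L, hL, hc⟩ := ih _ hcard E2 rfl (insert u S')
        (fun e he => hE1d e (Finset.mem_of_mem_erase he)) (by
          intro e he v hv
          rcases Finset.mem_insert.1 (Finset.mem_of_mem_erase he) with rfl | he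
          · rcases (hm v u y).1 hv with rfl | rfl
            · exact Finset.mem_insert_self _ _
            · exact Finset.mem_insert_of_mem hyS'
          · exact Finset.mem_insert_of_mem (hcov e (Finset.mem_of_mem_erase he) v hv))
      have hc2 : 2 * Multiset.card L ≤ S'.card := by
        rw [Finset.card_insert_of_notMem hu] at hc
        obtain ⟨k, hk⟩ := hev
        omega
      have hS'S : S'.card ≤ S.card := Finset.card_filter_le _ _
      -- add the edge `a b`
      obtain ⟨L1, hc1, hL1⟩ : ∃ L1 : Multiset (List ℕ × Bool),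
          Multiset.card L1 = Multiset.card L ∧ Dec L1 E1.val := by
        refine hsw E1 b {a} L hE1d hL.1 ?_ fun v hv => ?_
        · rw [hL.2, hE2v]
          simp only [Finset.singleton_val, Multiset.map_singleton]
          rw [add_comm, Multiset.singleton_add, Sym2.eq_swap]
        · have hvb : v ≠ b := ne_of_edge hE1d hv
          have hvu : v ≠ u := by
            rintro rfl
            rcases Finset.mem_insert.1 hv with h | h
            · have : b ∈ s(v, y) := by rw [← h]; exact Sym2.mem_mk_left b v
              rcases (hm b v y).1 this with h | h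
              · exact hub h.symm
              · exact hyb h.symm
            · exact huE _ (Finset.mem_of_mem_erase h) (Sym2.mem_mk_right b v)
          have hvE : s(b, v) ∈ E := by
            rcases Finset.mem_insert.1 hv with h | h
            · exfalso
              have : u ∈ s(b, v) := by rw [h]; exact Sym2.mem_mk_left u y
              rcases (hm u b v).1 this with h | h
              · exact hub h
              · exact hvu h.symm
            · exact Finset.mem_of_mem_erase h
          refine hend L _ v hL ?_
          have h1 := hodd b v hvE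
          have h2 := hd0 v
          have h3 := hd1 v
          have h4 := hd2 v
          simp only [hm, hvu, hvb, false_or, or_false] at h2 h3 h4
          rw [Nat.odd_iff] at h1 ⊢
          split_ifs at h2 h3 h4 <;> omega
      -- the path which ends in `u`
      have hdu1 : Odd (dg E1.val u) := by
        have h2 := hd0 u
        have h3 := hd1 u
        rw [hdu] at h2
        simp only [hm, true_or, if_true] at h3
        have : dg E1.val u = 1 := by omega
        rw [this]
        exact odd_one
      obtain ⟨p, hp⟩ := hend L1 _ u hL1 hdu1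
      have hfin : ∃ z L0, L1 = z ::ₘ L0 ∧ (z = (u :: p, false) ∨ z = ((u :: p).reverse, false)) := by
        rcases hp with h | h
        · obtain ⟨L0, h0⟩ := Multiset.exists_cons_of_mem h
          exact ⟨_, L0, h0, Or.inl rfl⟩
        · obtain ⟨L0, h0⟩ := Multiset.exists_cons_of_mem h
          exact ⟨_, L0, h0, Or.inr rfl⟩
      obtain ⟨z, L0, hz, hzz⟩ := hfin
      have hel : el z = pe (u :: p) := by
        rcases hzz with rfl | rfl
        · rw [el_false]
        · rw [el_false, pe_reverse]
      have hok : (u :: p).Nodup ∧ 2 ≤ (u :: p).length := by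
        have h1 := hL1.1 z (by rw [hz]; exact Multiset.mem_cons_self _ _)
        rcases hzz with rfl | rfl
        · exact ⟨h1.1, h1.2.1⟩
        · exact ⟨List.nodup_reverse.1 h1.1, by simpa using h1.2.1⟩
      have hbind : el z + L0.bind el = E1.val := by
        rw [← hL1.2, hz, Multiset.cons_bind]
      obtain ⟨w, l, rfl⟩ : ∃ w l, p = w :: l := by
        cases p with
        | nil => simp at hok
        | cons w l => exact ⟨w, l, rfl⟩
      have hwy : w = y := by
        have h1 : s(u, w) ∈ E1.val := by
          rw [← hbind, hel, Multiset.mem_add]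
          left
          simp
        rcases Finset.mem_insert.1 (show s(u, w) ∈ insert s(u, y) E0 from h1) with h | h
        · exact star_inj u h
        · exact absurd (Sym2.mem_mk_left u w) (huE _ (Finset.mem_of_mem_erase h))
      subst hwy
      have hL0 : pe (w :: l) + L0.bind el = E0.val := by
        rw [hel, pe_cons_cons, hE1v, Multiset.cons_add] at hbind
        exact (Multiset.cons_inj_right _).1 hbind
      have hok0 : ∀ x ∈ L0, Ok x := fun x hx => hL1.1 x (by rw [hz]; exact Multiset.mem_cons_of_mem hx)
      have hcz : Multiset.card L1 = Multiset.card L0 + 1 := by rw [hz, Multiset.card_cons]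
      cases l with
      | nil =>
        refine ⟨([a, w], false) ::ₘ L0, ⟨fun x hx => ?_, ?_⟩, ?_⟩
        · rcases Multiset.mem_cons.1 hx with rfl | hx
          · exact ⟨by simpa using Ne.symm hya, by simp, by simp⟩
          · exact hok0 x hx
        · rw [Multiset.cons_bind, el_false, pe_cons_cons, pe_single, hE0E, ← hL0, pe_single]
          simp
        · rw [Multiset.card_cons]
          omega
      | cons c l =>
        have hok2 : Ok (w :: c :: l, false) := by
          refine ⟨(List.nodup_cons.1 hok.1).2, by simp, by simp⟩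
        have hdec2 : Dec ((w :: c :: l, false) ::ₘ L0) E0.val := by
          refine ⟨fun x hx => ?_, ?_⟩
          · rcases Multiset.mem_cons.1 hx with rfl | hx
            · exact hok2
            · exact hok0 x hx
          · rw [Multiset.cons_bind, el_false, hL0]
        obtain ⟨L3, hc3, hL3⟩ := hsw E a {w} ((w :: c :: l, false) ::ₘ L0) hE hdec2.1 (by
            rw [hdec2.2, hE0E]
            simp only [Finset.singleton_val, Multiset.map_singleton]
            rw [add_comm, Multiset.singleton_add]) (fun v hv => by
          by_cases hvw : v = w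
          · subst hvw
            exact ⟨c :: l, Or.inl (Multiset.mem_cons_self _ _)⟩
          · refine hend _ _ v hdec2 ?_
            have hva := ne_of_edge hE hv
            have h1 := hodd a v hv
            have h2 := hd0 v
            rw [if_neg (by rw [hm]; push Not; exact ⟨hva, hvw⟩), add_zero] at h2
            rw [← h2]
            exact h1)
        refine ⟨L3, hL3, ?_⟩
        rw [hc3, Multiset.card_cons]
        omega

theorem stLov2 (hsw : StSwitch) (hend : StEnd) (hlov : StLov) : StLov2 := by
  intro E S a hE hS ha hev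
  set X := S.filter fun y => s(a, y) ∈ E with hX
  have hXE : ∀ y ∈ X, s(a, y) ∈ E := fun y hy => (Finset.mem_filter.1 hy).2
  obtain ⟨L, hL, hc⟩ := hlov (E \ star a X) (S.erase a)
    (fun e he => hE e (Finset.mem_sdiff.1 he).1) (by
      intro e he v hv
      rw [Finset.mem_sdiff] at he
      refine Finset.mem_erase.2 ⟨?_, hS e he.1 v hv⟩
      rintro rfl
      obtain ⟨w, rfl⟩ := hv
      refine he.2 (Finset.mem_image.2 ⟨w, ?_, rfl⟩)
      exact Finset.mem_filter.2 ⟨hS _ he.1 w (Sym2.mem_mk_right v w), he.1⟩)
  obtain ⟨L', hc', hL'⟩ := add_star hsw hend hE hXE hL (fun v hv => by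
    have hva := ne_of_edge hE hv
    have h1 := dg_sdiff_star hXE hva
    have h2 := dg_pos hv
    have hvX : v ∈ X := Finset.mem_filter.2 ⟨hS _ hv v (Sym2.mem_mk_right a v), hv⟩
    rw [if_pos hvX] at h1
    have h3 := hev v hv
    rw [Nat.even_iff] at h3
    rw [Nat.odd_iff]
    omega)
  refine ⟨L', hL', ?_⟩
  rw [Finset.card_erase_of_mem ha] at hc
  have : 0 < S.card := Finset.card_pos.2 ⟨a, ha⟩
  rw [hc']
  omega

end Pool.Agent.Lib.MP_d51747_co.Paths
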