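import Mathlib
import Pool.Agent.Lib.MP_d51747_co.Paths.Stmts
import Pool.Agent.Lib.MP_d51747_co.Paths.Basic
import Pool.Agent.Lib.MP_d51747_co.Paths.Lists

set_option autoImplicit false

/-!
# Packing paths (and small trees) into graphs of large average degree
-/

namespace Pool.Agent.Lib.MP_d51747_co.Paths

namespace Main

lemma edge_mem_pe (l : List ℕ) (j : ℕ) (hj : j + 1 < l.length) :
    s(l[j], l[j + 1]) ∈ pe l := by
  have h := pe_take_drop l j (by omega)
  rw [← h, Multiset.mem_add]
  right
  rw [List.drop_eq_getElem_cons (by omega), List.drop_eq_getElem_cons (by omega), pe_cons_cons]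
  exact Multiset.mem_cons_self _ _

/-- Transfer of the lists to a packing of paths in a graph on `Fin n`. -/
lemma paths (hlists : StLists) (k n : ℕ) (hk : 2 ≤ k) (hn : 0 < n) (hnk : n ≤ 2 * k - 1)
    (T : (i : ℕ) → SimpleGraph (Fin i)) (s : ℕ)
    (hpath : ∀ i, s < i → i ≤ k → Nonempty (SimpleGraph.pathGraph i ≃g T i))
    (G : SimpleGraph (Fin n)) (hG : (k - 1) * n ≤ 2 * G.edgeSet.ncard) :
    ∃ f : (i : ℕ) → Fin i → Fin n,
      (∀ i, 2 ≤ i → s < i → i ≤ k → Function.Injective (f i) ∧
        ∀ a b : Fin i, (T i).Adj a b → G.Adj (f i a) (f i b)) ∧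
      (∀ i j, 2 ≤ i → s < i → i ≤ k → 2 ≤ j → s < j → j ≤ k → i ≠ j →
        ∀ (a b : Fin i) (c d : Fin j), (T i).Adj a b → (T j).Adj c d →
          s(f i a, f i b) ≠ s(f j c, f j d)) := by
  classical
  have hinj : Function.Injective (Sym2.map (fun x : Fin n => (x : ℕ))) :=
    Sym2.map.injective Fin.val_injective
  obtain ⟨E, hE⟩ : ∃ E : Finset (Sym2 ℕ), 
      E = G.edgeFinset.image (Sym2.map fun x : Fin n => (x : ℕ)) :=
    ⟨_, rfl⟩
  have hEc : E.card = G.edgeSet.ncard := by
    rw [hE, Finset.card_image_of_injective _ hinj, SimpleGraph.edgeFinset,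
      Set.ncard_eq_toFinset_card']
  have hmemE : ∀ x y : Fin n, s((x : ℕ), (y : ℕ)) ∈ E → G.Adj x y := by
    intro x y hxy
    rw [hE, Finset.mem_image] at hxy
    obtain ⟨e, he, hee⟩ := hxy
    have : e = s(x, y) := hinj (by rw [hee, Sym2.map_mk])
    rw [this] at he
    simpa using he
  have hE1 : ∀ e ∈ E, ¬ e.IsDiag := by
    intro e he
    rw [hE, Finset.mem_image] at he
    obtain ⟨e', he', rfl⟩ := he
    induction e' using Sym2.ind with
    | _ x y =>
      rw [Sym2.map_mk, Sym2.mk_isDiag_iff]
      intro h
      have hxy : x = y := Fin.ext h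
      rw [SimpleGraph.mem_edgeFinset, SimpleGraph.mem_edgeSet, hxy] at he'
      exact G.loopless.irrefl _ he'
  have hE2 : ∀ e ∈ E, ∀ v ∈ e, v ∈ Finset.range n := by
    intro e he v hv
    rw [hE, Finset.mem_image] at he
    obtain ⟨e', he', rfl⟩ := he
    rw [Sym2.mem_map] at hv
    obtain ⟨x, _, rfl⟩ := hv
    exact Finset.mem_range.2 x.2
  obtain ⟨p, hp1, hp2⟩ := hlists E (Finset.range n) (k - 1) hE1 hE2 (by simpa using hn)
    (by rw [Finset.card_range, hEc]; exact hG) (by rw [Finset.card_range]; omega) (by omega)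
  have hlt : ∀ i, 2 ≤ i → i ≤ k → ∀ v ∈ p (i - 1), v < n := by
    intro i hi hik v hv
    obtain ⟨h1, h2, h3⟩ := hp1 (i - 1) (by omega) (by omega)
    obtain ⟨e, he, hve⟩ := Lists.exists_edge (by omega) hv
    exact Finset.mem_range.1 (hE2 e (h3 e he) v hve)
  -- the embeddings
  have hex : ∀ i : ℕ, ∃ g : Fin i → Fin n, 2 ≤ i → s < i → i ≤ k → Function.Injective g ∧
      ∀ a b : Fin i, (T i).Adj a b → s(((g a : Fin n) : ℕ), ((g b : Fin n) : ℕ)) ∈ pe (p (i - 1)) := by
    intro i
    by_cases hi : 2 ≤ i ∧ s < i ∧ i ≤ k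
    · obtain ⟨hi2, hsi, hik⟩ := hi
      obtain ⟨φ⟩ := hpath i hsi hik
      obtain ⟨h1, h2, h3⟩ := hp1 (i - 1) (by omega) (by omega)
      have hlen : (p (i - 1)).length = i := by omega
      refine ⟨fun t => ⟨(p (i - 1))[(φ.symm t : Fin i).val]'(by rw [hlen]; exact (φ.symm t).2),
        hlt i hi2 hik _ (List.getElem_mem _)⟩, fun _ _ _ => ⟨?_, ?_⟩⟩
      · intro t t' htt
        have h4 := congrArg Fin.val htt
        simp only at h4
        have h5 := (List.Nodup.getElem_inj_iff h1).1 h4
        exact φ.symm.injective (Fin.ext h5)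
      · intro a b hab
        have h4 : (SimpleGraph.pathGraph i).Adj (φ.symm a) (φ.symm b) :=
          φ.symm.map_rel_iff.2 hab
        rw [SimpleGraph.pathGraph_adj] at h4
        simp only
        have hlenb : (φ.symm b : Fin i).val < (p (i - 1)).length := by
          rw [hlen]; exact (φ.symm b).2
        have hlena : (φ.symm a : Fin i).val < (p (i - 1)).length := by
          rw [hlen]; exact (φ.symm a).2
        rcases h4 with h4 | h4
        · have h5 := edge_mem_pe (p (i - 1)) (φ.symm a : Fin i).val (by rw [h4]; exact hlenb)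
          simp only [h4] at h5
          exact h5
        · have h5 := edge_mem_pe (p (i - 1)) (φ.symm b : Fin i).val (by rw [h4]; exact hlena)
          simp only [h4] at h5
          rw [Sym2.eq_swap]
          exact h5
    · exact ⟨fun _ => ⟨0, hn⟩, fun h1 h2 h3 => absurd ⟨h1, h2, h3⟩ hi⟩
  choose f hf using hex
  refine ⟨f, fun i hi hsi hik => ⟨(hf i hi hsi hik).1, fun a b hab => ?_⟩, ?_⟩
  · apply hmemE
    exact (hp1 (i - 1) (by omega) (by omega)).2.2 _ ((hf i hi hsi hik).2 a b hab)
  · intro i j hi hsi hik hj hsj hjk hij a b c d hab hcd heq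
    have h1 := (hf i hi hsi hik).2 a b hab
    have h2 := (hf j hj hsj hjk).2 c d hcd
    have h3 : s(((f i a : Fin n) : ℕ), ((f i b : Fin n) : ℕ)) =
        s(((f j c : Fin n) : ℕ), ((f j d : Fin n) : ℕ)) := by
      have := congrArg (Sym2.map fun x : Fin n => (x : ℕ)) heq
      simpa using this
    rw [h3] at h1
    exact Multiset.disjoint_left.1 (hp2 (i - 1) (j - 1) (by omega) (by omega) (by omega)
      (by omega) (by omega)) h1 h2

/-- The number of edges of the image of a tree on `i` vertices is at most `i - 1`. -/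
lemma card_image {i n : ℕ} (T : SimpleGraph (Fin i)) (hT : T.IsTree) (g : Fin i → Fin n) :
    {e | ∃ a b : Fin i, T.Adj a b ∧ e = s(g a, g b)}.ncard ≤ i - 1 := by
  classical
  have h1 : {e | ∃ a b : Fin i, T.Adj a b ∧ e = s(g a, g b)} = Sym2.map g '' T.edgeSet := by
    ext e
    constructor
    · rintro ⟨a, b, hab, rfl⟩
      exact ⟨s(a, b), hab, rfl⟩
    · rintro ⟨e', he', rfl⟩
      induction e' using Sym2.ind with
      | _ a b => exact ⟨a, b, he', rfl⟩
  rw [h1]
  refine (Set.ncard_image_le (Set.toFinite _)).trans ?_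
  have h2 := hT.card_edgeFinset
  rw [Fintype.card_fin] at h2
  rw [Set.ncard_eq_toFinset_card']
  show T.edgeFinset.card ≤ i - 1
  omega

/-- Main theorem, from the lists and the greedy embedding. -/
theorem main (hlists : StLists) (hgreedy : StGreedy) (k s n : ℕ) (hk : 2 ≤ k) (hn : 0 < n)
    (hs : s ≤ k)
    (hcond : ∀ i, 2 ≤ i → i ≤ s → (k - i) * (k + i - 1) < (k - i + 1) * n)
    (T : (i : ℕ) → SimpleGraph (Fin i)) (hT : ∀ i, 2 ≤ i → i ≤ k → (T i).IsTree)
    (hpath : ∀ i, s < i → i ≤ k → Nonempty (SimpleGraph.pathGraph i ≃g T i))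
    (G : SimpleGraph (Fin n)) (hG : (k - 1) * n ≤ 2 * G.edgeSet.ncard) :
    ∃ f : (i : ℕ) → Fin i → Fin n,
      (∀ i, 2 ≤ i → i ≤ k → Function.Injective (f i) ∧
        ∀ a b : Fin i, (T i).Adj a b → G.Adj (f i a) (f i b)) ∧
      (∀ i j, 2 ≤ i → i ≤ k → 2 ≤ j → j ≤ k → i ≠ j →
        ∀ (a b : Fin i) (c d : Fin j), (T i).Adj a b → (T j).Adj c d →
          s(f i a, f i b) ≠ s(f j c, f j d)) := by
  classical
  rcases Nat.lt_or_ge (2 * k - 1) n with hlarge | hsmall
  · -- `n ≥ 2k`: greedy
    refine hgreedy n k hn T hT G ?_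
    intro j hj
    refine lt_of_lt_of_le ?_ hG
    have h1 : j * (2 * k - j - 1) ≤ j * n := Nat.mul_le_mul_left _ (by omega)
    have h2 : (k - j - 2) * n + j * n + n = (k - 1) * n := by
      have : k - 1 = (k - j - 2) + j + 1 := by omega
      rw [this]; ring
    omega
  · obtain ⟨f, hf1, hf2⟩ := paths hlists k n hk hn hsmall T s hpath G hG
    -- the used edges
    obtain ⟨U, hU⟩ : ∃ U : Set (Sym2 (Fin n)), U = ⋃ i ∈ Finset.Icc (max 2 (s + 1)) k,
      {e | ∃ a b : Fin i, (T i).Adj a b ∧ e = s(f i a, f i b)} := ⟨_, rfl⟩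
    have hUc : U.ncard ≤ ∑ i ∈ Finset.Icc (max 2 (s + 1)) k, (i - 1) := by
      rw [hU]
      refine (Finset.set_ncard_biUnion_le _ _).trans ?_
      apply Finset.sum_le_sum
      intro i hi
      rw [Finset.mem_Icc] at hi
      exact card_image (T i) (hT i (le_trans (le_max_left _ _) hi.1) hi.2) (f i)
    have hsum : ∀ m, s ≤ m → m ≤ k →
        2 * ∑ i ∈ Finset.Icc (max 2 (s + 1)) m, (i - 1) ≤ (m - s) * (m + s - 1) := by
      intro m
      induction m with
      | zero =>
        intro h1 _
        have : Finset.Icc (max 2 (s + 1)) 0 = ∅ := by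
          rw [Finset.Icc_eq_empty_iff]; simp
        rw [this]; simp
      | succ m ih =>
        intro h1 h2
        rcases Nat.lt_or_ge m s with h3 | h3
        · have : Finset.Icc (max 2 (s + 1)) (m + 1) = ∅ := by
            rw [Finset.Icc_eq_empty_iff]; omega
          rw [this]; simp
        · have ih' := ih h3 (by omega)
          obtain ⟨d, rfl⟩ := Nat.exists_eq_add_of_le h3
          have e1 : s + d - s = d := by omega
          have e2 : s + d + 1 - s = d + 1 := by omega
          rw [e1] at ih'
          rw [e2]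
          have h4 : ∑ i ∈ Finset.Icc (max 2 (s + 1)) (s + d + 1), (i - 1) ≤
              ∑ i ∈ Finset.Icc (max 2 (s + 1)) (s + d), (i - 1) + (s + d) := by
            have h5 : Finset.Icc (max 2 (s + 1)) (s + d + 1) ⊆
                insert (s + d + 1) (Finset.Icc (max 2 (s + 1)) (s + d)) := by
              intro x hx
              rw [Finset.mem_Icc] at hx
              rw [Finset.mem_insert, Finset.mem_Icc]
              omega
            refine (Finset.sum_le_sum_of_subset h5).trans ?_
            rw [Finset.sum_insert (by simp)]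
            omega
          have h6 : d * (s + d + s - 1) + 2 * (s + d) = (d + 1) * (s + d + 1 + s - 1) := by
            rcases Nat.eq_zero_or_pos (s + d) with h7 | h7
            · have hs0 : s = 0 := by omega
              have hd0 : d = 0 := by omega
              subst hs0; subst hd0; rfl
            · obtain ⟨w, hw⟩ : ∃ w, s + d + s = w + 1 := ⟨s + d + s - 1, by omega⟩
              have e3 : s + d + s - 1 = w := by omega
              have e4 : s + d + 1 + s - 1 = w + 1 := by omega
              rw [e3, e4]
              have : 2 * (s + d) = w + 1 + d := by omega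
              rw [this]; ring
          omega
    have hUsum : 2 * U.ncard ≤ (k - s) * (k + s - 1) := (Nat.mul_le_mul_left 2 hUc).trans
      (hsum k hs le_rfl)
    rcases Nat.lt_or_ge s 2 with hs2 | hs2
    · -- only paths
      refine ⟨f, fun i hi hik => hf1 i hi (by omega) hik, fun i j hi hik hj hjk hij => ?_⟩
      exact hf2 i j hi (by omega) hik hj (by omega) hjk hij
    · have hG' : G.edgeSet.ncard ≤ (G.deleteEdges U).edgeSet.ncard + U.ncard := by
        rw [SimpleGraph.edgeSet_deleteEdges]
        have := Set.ncard_le_ncard_sdiff_add_ncard G.edgeSet U (Set.toFinite _)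
        exact this
      obtain ⟨g, hg1, hg2⟩ := hgreedy n s hn T (fun i h1 h2 => hT i h1 (h2.trans hs))
        (G.deleteEdges U) (by
          intro j hj
          have hc := hcond (s - j) (by omega) (by omega)
          have e1 : k - (s - j) = k - s + j := by omega
          have e2 : k + (s - j) - 1 = k + s - j - 1 := by omega
          rw [e1, e2] at hc
          have e3 : (k - s + j) * (k + s - j - 1) = j * (2 * s - j - 1) + (k - s) * (k + s - 1) := by
            obtain ⟨a, ha⟩ := Nat.exists_eq_add_of_le hs
            obtain ⟨b, hb⟩ := Nat.exists_eq_add_of_le hj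
            have r1 : k - s = a := by omega
            have r2 : k + s - j - 1 = a + s + b + 1 := by omega
            have r3 : 2 * s - j - 1 = s + b + 1 := by omega
            have r4 : k + s - 1 = a + s + j + b + 1 := by omega
            rw [r1, r2, r3, r4]
            have : s = j + 2 + b := hb
            rw [this]; ring
          rw [e3] at hc
          have e4 : (s - j - 2) * n + (k - s + j + 1) * n = (k - 1) * n := by
            rw [← add_mul]; congr 1; omega
          omega)
      refine ⟨fun i => if i ≤ s then g i else f i, ?_, ?_⟩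
      · intro i hi hik
        by_cases his : i ≤ s
        · simp only [his, if_true]
          obtain ⟨h1, h2⟩ := hg1 i hi his
          refine ⟨h1, fun a b hab => ?_⟩
          have := h2 a b hab
          rw [SimpleGraph.deleteEdges_adj] at this
          exact this.1
        · simp only [his, if_false]
          exact hf1 i hi (by omega) hik
      · have key : ∀ i j, 2 ≤ i → i ≤ s → 2 ≤ j → s < j → j ≤ k →
            ∀ (a b : Fin i) (c d : Fin j), (T i).Adj a b → (T j).Adj c d →
              s(g i a, g i b) ≠ s(f j c, f j d) := by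
          intro i j hi his hj hsj hjk a b c d hab hcd heq
          have h1 := (hg1 i hi his).2 a b hab
          rw [SimpleGraph.deleteEdges_adj] at h1
          apply h1.2
          rw [heq, hU]
          simp only [Set.mem_iUnion]
          exact ⟨j, Finset.mem_Icc.2 ⟨by omega, hjk⟩, c, d, hcd, rfl⟩
        intro i j hi hik hj hjk hij a b c d hab hcd
        by_cases his : i ≤ s
        · by_cases hjs : j ≤ s
          · simp only [his, hjs, if_true]
            exact hg2 i j hi his hj hjs hij a b c d hab hcd
          · simp only [his, hjs, if_true, if_false]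
            exact key i j hi his hj (by omega) hjk a b c d hab hcd
        · by_cases hjs : j ≤ s
          · simp only [his, hjs, if_true, if_false]
            exact (key j i hj hjs hi (by omega) hik c d a b hcd hab).symm
          · simp only [his, hjs, if_false]
            exact hf2 i j hi (by omega) hik hj (by omega) hjk hij a b c d hab hcd

end Main

end Pool.Agent.Lib.MP_d51747_co.Paths
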