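import Mathlib
import Pool.Agent.Lib.MP_d51747_co.Paths.Stmts
import Pool.Agent.Lib.MP_d51747_co.Paths.Hand

set_option autoImplicit false

/-!
# Removing few edges so that all neighbours of some vertex become even
-/

namespace Pool.Agent.Lib.MP_d51747_co.Paths

namespace Matching

lemma dg_eq (E : Finset (Sym2 ℕ)) (v : ℕ) : dg E.val v = (E.filter fun e => v ∈ e).card := by
  unfold dg
  rw [Multiset.countP_eq_card_filter]
  rfl

lemma dg_sdiff {E F : Finset (Sym2 ℕ)} (hF : F ⊆ E) (v : ℕ) :
    dg (E \ F).val v + dg F.val v = dg E.val v := by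
  rw [dg_eq, dg_eq, dg_eq]
  have h1 : (E \ F).filter (fun e => v ∈ e) = E.filter (fun e => v ∈ e) \ F.filter fun e => v ∈ e := by
    ext e
    simp only [Finset.mem_filter, Finset.mem_sdiff]
    tauto
  rw [h1, Finset.card_sdiff_of_subset (Finset.filter_subset_filter _ hF)]
  have := Finset.card_le_card (Finset.filter_subset_filter (fun e => v ∈ e) hF)
  omega

end Matching

/-- The matching lemma. -/
theorem stMatching : StMatch := by
  classical
  intro E S h hE hS hcard hev
  obtain ⟨v0, hv0, hv0e⟩ := hev
  obtain ⟨Od, hOd⟩ : ∃ Od, Od = S.filter fun v => Odd (dg E.val v) := ⟨_, rfl⟩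
  have hOdeven : Even Od.card := by rw [hOd]; exact (stHand E S hE hS).2
  have hOdS : Od ⊆ S := by rw [hOd]; exact Finset.filter_subset _ _
  have hmemOd : ∀ v, v ∈ Od ↔ v ∈ S ∧ Odd (dg E.val v) := by
    intro v; rw [hOd, Finset.mem_filter]
  have hOdlt : Od.card < S.card := by
    apply Finset.card_lt_card
    refine ⟨hOdS, fun hsub => ?_⟩
    have := ((hmemOd v0).1 (hsub hv0)).2
    rw [← Nat.not_even_iff_odd] at this
    exact this hv0e
  have hOdle : Od.card + 2 ≤ 2 * h := by
    obtain ⟨r, hr⟩ := hOdeven
    omega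
  obtain ⟨O, hO⟩ : ∃ O : ℕ → Finset ℕ, ∀ v y, y ∈ O v ↔ y ∈ Od ∧ s(v, y) ∈ E :=
    ⟨fun v => Od.filter fun y => s(v, y) ∈ E, fun v y => by rw [Finset.mem_filter]⟩
  have hOsub : ∀ v, O v ⊆ Od := fun v y hy => ((hO v y).1 hy).1
  obtain ⟨a, ha, hamin⟩ := Finset.exists_min_image S (fun v => (O v).card) ⟨v0, hv0⟩
  -- maximum matching inside `O a`
  obtain ⟨K, hK, hKmax⟩ := Finset.exists_max_image
    (E.powerset.filter fun K => (∀ e ∈ K, ∀ v ∈ e, v ∈ O a) ∧
      ∀ e ∈ K, ∀ e' ∈ K, ∀ v, v ∈ e → v ∈ e' → e = e') Finset.card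
    ⟨∅, by simp⟩
  rw [Finset.mem_filter, Finset.mem_powerset] at hK
  obtain ⟨hKE, hKO, hKm⟩ := hK
  obtain ⟨V, hV⟩ : ∃ V : Finset ℕ, V = K.biUnion Sym2.toFinset := ⟨_, rfl⟩
  have hmemV : ∀ v, v ∈ V ↔ ∃ e ∈ K, v ∈ e := by
    intro v
    rw [hV, Finset.mem_biUnion]
    simp only [Sym2.mem_toFinset]
  have hVO : V ⊆ O a := by
    intro v hv
    obtain ⟨e, he, hve⟩ := (hmemV v).1 hv
    exact hKO e he v hve
  have hVcard : V.card = 2 * K.card := by
    rw [hV, Finset.card_biUnion]
    · rw [Finset.sum_const_nat (m := 2)]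
      · ring
      · intro e he
        exact Sym2.card_toFinset_of_not_isDiag e (hE e (hKE he))
    · intro e he e' he' hne
      rw [Function.onFun, Finset.disjoint_left]
      intro v hv hv'
      rw [Sym2.mem_toFinset] at hv hv'
      exact hne (hKm e he e' he' v hv hv')
  have hne : ∀ x y, s(x, y) ∈ E → x ≠ y := by
    intro x y hxy h1
    exact hE _ hxy (Sym2.mk_isDiag_iff.2 h1)
  obtain ⟨F, hF⟩ : ∃ F, F = K ∪ (O a \ V).image fun y => s(a, y) := ⟨_, rfl⟩
  have hFE : F ⊆ E := by
    rw [hF]
    apply Finset.union_subset hKE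
    intro e he
    obtain ⟨y, hy, rfl⟩ := Finset.mem_image.1 he
    exact ((hO a y).1 (Finset.mem_sdiff.1 hy).1).2
  have hFcard : F.card + K.card ≤ (O a).card := by
    have h1 : F.card ≤ K.card + (O a \ V).card := by
      rw [hF]
      exact (Finset.card_union_le _ _).trans (Nat.add_le_add_left Finset.card_image_le _)
    have h2 : (O a \ V).card = (O a).card - V.card := Finset.card_sdiff_of_subset hVO
    have h3 := Finset.card_le_card hVO
    omega
  refine ⟨a, ha, F, hFE, ?_, ?_⟩
  · by_cases hperf : O a ⊆ V
    · have h1 : V = O a := Finset.Subset.antisymm hVO hperf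
      have h2 := Finset.card_le_card (hOsub a)
      have h3 : (O a).card = 2 * K.card := by rw [← h1, hVcard]
      omega
    · obtain ⟨v, hv, hvV⟩ := Finset.not_subset.1 hperf
      have hvS : v ∈ S := hOdS (hOsub a hv)
      have h1 := hamin v hvS
      have h2 : O v ∩ O a ⊆ V := by
        intro y hy
        rw [Finset.mem_inter] at hy
        by_contra hyV
        have hvy := ((hO v y).1 hy.1).2
        have hnew : s(v, y) ∉ K := fun h3 => hvV ((hmemV v).2 ⟨_, h3, by simp⟩)
        have h4 := hKmax (insert s(v, y) K) (by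
          rw [Finset.mem_filter, Finset.mem_powerset]
          refine ⟨Finset.insert_subset hvy hKE, ?_, ?_⟩
          · intro e he w hw
            rw [Finset.mem_insert] at he
            rcases he with rfl | he
            · rcases Sym2.mem_iff.1 hw with rfl | rfl
              · exact hv
              · exact hy.2
            · exact hKO e he w hw
          · have key : ∀ e ∈ K, ∀ w, w ∈ e → w ∉ s(v, y) := by
              intro e he w hwe hw
              rcases Sym2.mem_iff.1 hw with rfl | rfl
              · exact hvV ((hmemV _).2 ⟨e, he, hwe⟩)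
              · exact hyV ((hmemV _).2 ⟨e, he, hwe⟩)
            intro e he e' he' w hw hw'
            rw [Finset.mem_insert] at he he'
            rcases he with rfl | he
            · rcases he' with rfl | he'
              · rfl
              · exact absurd hw (key e' he' w hw')
            · rcases he' with rfl | he'
              · exact absurd hw' (key e he w hw)
              · exact hKm e he e' he' w hw hw')
        rw [Finset.card_insert_of_notMem hnew] at h4
        omega
      have h5 : O v \ O a ⊆ Od \ O a := Finset.sdiff_subset_sdiff (hOsub v) le_rfl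
      have h6 := Finset.card_le_card h2
      have h7 := Finset.card_le_card h5
      have h8 : (Od \ O a).card = Od.card - (O a).card := Finset.card_sdiff_of_subset (hOsub a)
      have h9 := Finset.card_le_card (hOsub a)
      have h10 : (O v \ O a).card + (O v ∩ O a).card = (O v).card :=
        Finset.card_sdiff_add_card_inter _ _
      omega
  · intro v hv
    rw [Finset.mem_sdiff] at hv
    have hvS : v ∈ S := hS _ hv.1 v (by simp)
    have hav := hne a v hv.1
    have hsd := Matching.dg_sdiff hFE v
    by_cases hodd : Odd (dg E.val v)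
    · have hvO : v ∈ O a := (hO a v).2 ⟨(hmemOd v).2 ⟨hvS, hodd⟩, hv.1⟩
      have hvV : v ∈ V := by
        by_contra hvV
        apply hv.2
        rw [hF, Finset.mem_union]
        right
        exact Finset.mem_image.2 ⟨v, Finset.mem_sdiff.2 ⟨hvO, hvV⟩, rfl⟩
      obtain ⟨e, he, hve⟩ := (hmemV v).1 hvV
      have h1 : dg F.val v = 1 := by
        rw [Matching.dg_eq, Finset.card_eq_one]
        refine ⟨e, ?_⟩
        ext e'
        rw [Finset.mem_filter, Finset.mem_singleton, hF, Finset.mem_union]
        constructor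
        · rintro ⟨he' | he', hve'⟩
          · exact hKm e' he' e he v hve' hve
          · exfalso
            obtain ⟨y, hy, rfl⟩ := Finset.mem_image.1 he'
            rcases Sym2.mem_iff.1 hve' with h2 | h2
            · exact hav h2.symm
            · exact (Finset.mem_sdiff.1 hy).2 (h2 ▸ hvV)
        · rintro rfl
          exact ⟨Or.inl he, hve⟩
      rw [h1] at hsd
      obtain ⟨r, hr⟩ := hodd
      exact ⟨r, by omega⟩
    · have h1 : dg F.val v = 0 := by
        rw [Matching.dg_eq, Finset.card_eq_zero, Finset.filter_eq_empty_iff]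
        intro e he hve
        rw [hF, Finset.mem_union] at he
        rcases he with he | he
        · exact hodd ((hmemOd v).1 (hOsub a (hKO e he v hve))).2
        · obtain ⟨y, hy, rfl⟩ := Finset.mem_image.1 he
          rcases Sym2.mem_iff.1 hve with h2 | h2
          · exact hav h2.symm
          · rw [h2] at hodd
            exact hodd ((hmemOd y).1 (hOsub a (Finset.mem_sdiff.1 hy).1)).2
      rw [h1, add_zero] at hsd
      rw [hsd]
      exact Nat.not_odd_iff_even.1 hodd

end Pool.Agent.Lib.MP_d51747_co.Paths
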