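import Mathlib
import Pool.Agent.Lib.MP_d51747_co.Paths.Stmts
import Pool.Agent.Lib.MP_d51747_co.Paths.Basic

set_option autoImplicit false

/-!
# The switching lemma
-/

namespace Pool.Agent.Lib.MP_d51747_co.Paths

namespace Switch

/-- A good path for the centre `a` and the blocked set `W`. -/
def Gd (a : ℕ) (W : Finset ℕ) (p : List ℕ) : Prop :=
  a ∉ p ∨ (∃ q, p = q ++ [a]) ∨ ∃ p1 w p2, p = p1 ++ w :: a :: p2 ∧ p2 ≠ [] ∧ w ∉ W

/-- The invariant of the switching procedure. -/
structure Inv (E : Finset (Sym2 ℕ)) (a : ℕ) (L : Multiset (List ℕ × Bool)) (X W : Finset ℕ) :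
    Prop where
  ok : ∀ x ∈ L, Ok x
  eq : L.bind el + X.val.map (fun x => s(a, x)) = E.val
  dis : ∀ x ∈ X, x ∉ W
  good : ∀ v, s(a, v) ∈ E → v ∉ W → ∃ l, MemR L (v :: l) ∧ Gd a W (v :: l)

lemma Inv.mem {E : Finset (Sym2 ℕ)} {a : ℕ} {L : Multiset (List ℕ × Bool)} {X W : Finset ℕ}
    (h : Inv E a L X W) {x : ℕ} (hx : x ∈ X) : s(a, x) ∈ E := by
  rw [← Finset.mem_val, ← h.eq, Multiset.mem_add]
  right
  exact Multiset.mem_map_of_mem _ hx

lemma Inv.not_mem {E : Finset (Sym2 ℕ)} {a : ℕ} {L : Multiset (List ℕ × Bool)} {X W : Finset ℕ}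
    (h : Inv E a L X W) {x : ℕ} (hx : x ∈ X) : s(a, x) ∉ L.bind el := by
  have h1 : (L.bind el + X.val.map (fun x => s(a, x))).Nodup := by rw [h.eq]; exact E.nodup
  rw [Multiset.nodup_add] at h1
  intro h2
  exact Multiset.disjoint_left.1 h1.2.2 h2 (Multiset.mem_map_of_mem _ hx)

lemma gd_step {a : ℕ} {W : Finset ℕ} {x : ℕ} {p : List ℕ} (h : Gd a W p)
    (hx : s(a, x) ∉ pe p) : Gd a (insert x W) p := by
  rcases h with h | h | ⟨p1, w, p2, h1, h2, h3⟩
  · exact Or.inl h
  · exact Or.inr (Or.inl h)
  · refine Or.inr (Or.inr ⟨p1, w, p2, h1, h2, ?_⟩)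
    rw [Finset.mem_insert]
    rintro (rfl | h4)
    · apply hx
      rw [h1, pe_append_cons, Multiset.mem_add]
      right
      rw [pe_cons_cons, Multiset.mem_cons]
      left
      exact Sym2.eq_swap
    · exact h3 h4

/-- Good ends persist, except on the replaced element. -/
lemma persist {L1 : Multiset (List ℕ × Bool)} {z : List ℕ × Bool} {p : List ℕ}
    (hz : z = (p, false) ∨ z = (p.reverse, false)) {x : ℕ} {l0 : List ℕ} (hp : p = x :: l0)
    {v : ℕ} {lv : List ℕ} (hv : v ≠ x) (h : MemR (z ::ₘ L1) (v :: lv)) :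
    MemR L1 (v :: lv) ∨ v :: lv = p.reverse := by
  unfold MemR at h ⊢
  simp only [Multiset.mem_cons] at h
  rcases h with (h | h) | (h | h)
  · right
    rcases hz with rfl | rfl
    · have : v :: lv = p := congrArg Prod.fst h
      rw [hp] at this
      exact absurd (List.cons.inj this).1 hv
    · exact congrArg Prod.fst h
  · exact Or.inl (Or.inl h)
  · right
    rcases hz with rfl | rfl
    · have : (v :: lv).reverse = p := congrArg Prod.fst h
      rw [← this, List.reverse_reverse]
    · have h1 : (v :: lv).reverse = p.reverse := congrArg Prod.fst h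
      have h2 : v :: lv = p := List.reverse_injective h1
      rw [hp] at h2
      exact absurd (List.cons.inj h2).1 hv
  · exact Or.inl (Or.inr h)

lemma memR_cons {L1 : Multiset (List ℕ × Bool)} {z : List ℕ × Bool} {q : List ℕ}
    (h : MemR L1 q) : MemR (z ::ₘ L1) q := by
  unfold MemR at *
  simp only [Multiset.mem_cons]
  tauto

lemma step {E : Finset (Sym2 ℕ)} (hE : ∀ e ∈ E, ¬ e.IsDiag) {a : ℕ}
    {L : Multiset (List ℕ × Bool)} {X W : Finset ℕ} (h : Inv E a L X W) {x : ℕ} (hx : x ∈ X) :
    ∃ (L' : Multiset (List ℕ × Bool)) (X' : Finset ℕ), Multiset.card L' = Multiset.card L ∧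
      Inv E a L' X' (insert x W) := by
  have hxE := h.mem hx
  have hxW := h.dis x hx
  have hxL := h.not_mem hx
  have hne : ∀ v, s(a, v) ∈ E → v ≠ a := by
    intro v hv hva
    apply hE _ hv
    rw [hva]
    exact Sym2.mk_isDiag_iff.2 rfl
  obtain ⟨l0, hm, hg⟩ := h.good x hxE hxW
  obtain ⟨p, hp⟩ : ∃ p, p = x :: l0 := ⟨_, rfl⟩
  rw [← hp] at hm hg
  -- the element
  obtain ⟨z, L1, hz, hL⟩ : ∃ z L1, (z = (p, false) ∨ z = (p.reverse, false)) ∧ L = z ::ₘ L1 := by
    rcases hm with hm | hm
    · obtain ⟨L1, hL1⟩ := Multiset.exists_cons_of_mem hm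
      exact ⟨_, L1, Or.inl rfl, hL1⟩
    · obtain ⟨L1, hL1⟩ := Multiset.exists_cons_of_mem hm
      exact ⟨_, L1, Or.inr rfl, hL1⟩
  have helz : el z = pe p := by
    rcases hz with rfl | rfl
    · simp
    · simp [pe_reverse]
  have hokz : Ok z := h.ok z (by rw [hL]; simp)
  have hpn : p.Nodup ∧ 2 ≤ p.length := by
    rcases hz with rfl | rfl
    · exact ⟨hokz.1, hokz.2.1⟩
    · exact ⟨List.nodup_reverse.1 hokz.1, by simpa using hokz.2.1⟩
  have hbind : L.bind el = pe p + L1.bind el := by
    rw [hL, Multiset.cons_bind, helz]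
  have hxp : s(a, x) ∉ pe p := by
    intro h1
    apply hxL
    rw [hbind, Multiset.mem_add]
    exact Or.inl h1
  have hXe : X.val.map (fun x => s(a, x)) = s(a, x) ::ₘ (X.erase x).val.map (fun x => s(a, x)) := by
    conv_lhs => rw [← Finset.insert_erase hx]
    rw [Finset.insert_val_of_notMem (Finset.notMem_erase x X), Multiset.map_cons]
  have hok1 : ∀ y ∈ L1, Ok y := fun y hy => h.ok y (by rw [hL]; simp [hy])
  -- good ends of the new system, given a treatment of the replaced element
  have hgood : ∀ z' : List ℕ × Bool,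
      (∀ lv v, s(a, v) ∈ E → v ∉ W → v ≠ x → v :: lv = p.reverse → Gd a W (v :: lv) →
        ∃ l, MemR (z' ::ₘ L1) (v :: l) ∧ Gd a (insert x W) (v :: l)) →
      ∀ v, s(a, v) ∈ E → v ∉ insert x W →
        ∃ l, MemR (z' ::ₘ L1) (v :: l) ∧ Gd a (insert x W) (v :: l) := by
    intro z' hz' v hv hvW
    rw [Finset.mem_insert, not_or] at hvW
    obtain ⟨lv, hlv, hgv⟩ := h.good v hv hvW.2
    have hlv' := hlv
    rw [hL] at hlv'
    rcases persist hz hp hvW.1 hlv' with h1 | h1
    · refine ⟨lv, memR_cons h1, gd_step hgv fun h2 => hxL (mem_bind_of_memR hlv h2)⟩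
    · exact hz' lv v hv hvW.2 hvW.1 h1 hgv
  rcases hg with hg | ⟨q, hq⟩ | ⟨p1, w, p2, hpw, hp2, hw⟩
  · -- case (a)
    refine ⟨(a :: p, false) ::ₘ L1, X.erase x, ?_, ?_, ?_, ?_, ?_⟩
    · rw [hL]; simp
    · intro y hy
      rw [Multiset.mem_cons] at hy
      rcases hy with rfl | hy
      · exact ⟨List.nodup_cons.2 ⟨hg, hpn.1⟩, by simp; omega, by simp⟩
      · exact hok1 y hy
    · rw [← h.eq, hXe, hbind, Multiset.cons_bind, el_false, hp, pe_cons_cons]
      simp only [Multiset.cons_add, Multiset.add_cons]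
    · intro y hy
      rw [Finset.mem_erase] at hy
      rw [Finset.mem_insert, not_or]
      exact ⟨hy.1, h.dis y hy.2⟩
    · apply hgood
      intro lv v hv hvW hvx hrev _
      refine ⟨lv ++ [a], ?_, ?_⟩
      · right
        rw [Multiset.mem_cons]
        left
        rw [← List.cons_append, hrev]
        simp
      · right; left
        exact ⟨v :: lv, by simp⟩
  · -- case (b)
    refine ⟨(p, true) ::ₘ L1, X.erase x, ?_, ?_, ?_, ?_, ?_⟩
    · rw [hL]; simp
    · intro y hy
      rw [Multiset.mem_cons] at hy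
      rcases hy with rfl | hy
      · refine ⟨hpn.1, hpn.2, fun _ => ?_⟩
        show 3 ≤ p.length
        by_contra hlt
        have hl2 : p.length = 2 := by omega
        obtain ⟨y, z, hyz⟩ := List.length_eq_two.1 hl2
        rw [hp] at hyz
        have hyx : x = y := by simpa using (List.cons.inj hyz).1
        have hl0 : l0 = [z] := by simpa using (List.cons.inj hyz).2
        have : z = a := by
          rw [hp, hl0] at hq
          have h3 := congrArg List.getLast? hq
          simpa using h3
        apply hxp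
        rw [hp, hl0, this]
        simp [Sym2.eq_swap]
      · exact hok1 y hy
    · have h4 : el (p, true) = s(a, x) ::ₘ pe p := by
        conv_lhs => rw [hp, el_true, ← hp, hq, List.append_assoc]
        show pe (q ++ [a, x]) = _
        rw [pe_concat, ← hq]
      rw [← h.eq, hXe, hbind, Multiset.cons_bind, h4]
      simp only [Multiset.cons_add, Multiset.add_cons]
    · intro y hy
      rw [Finset.mem_erase] at hy
      rw [Finset.mem_insert, not_or]
      exact ⟨hy.1, h.dis y hy.2⟩
    · apply hgood
      intro lv v hv hvW hvx hrev _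
      exfalso
      rw [hq, List.reverse_append] at hrev
      have : v = a := by simpa using (List.cons.inj hrev).1
      exact hne v hv this
  · -- case (c)
    obtain ⟨p1', hp1⟩ : ∃ p1', p1 = x :: p1' := by
      cases p1 with
      | nil =>
        exfalso
        have h5 : x = w := by
          rw [hp] at hpw
          exact (List.cons.inj hpw).1
        apply hxp
        rw [hpw, ← h5]
        simp [Sym2.eq_swap]
      | cons y p1' =>
        rw [hp] at hpw
        exact ⟨p1', by rw [(List.cons.inj hpw).1]⟩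
    have hpe : pe p = pe (p1 ++ [w]) + s(w, a) ::ₘ pe (a :: p2) := by
      rw [hpw, pe_append_cons, pe_cons_cons]
    obtain ⟨p', hp'⟩ : ∃ p', p' = (p1 ++ [w]).reverse ++ a :: p2 := ⟨_, rfl⟩
    have hpe' : pe p' = pe (p1 ++ [w]) + s(x, a) ::ₘ pe (a :: p2) := by
      have h6 : p' = (w :: p1'.reverse) ++ x :: (a :: p2) := by
        rw [hp', hp1]; simp
      rw [h6, pe_append_cons, pe_cons_cons]
      congr 1
      rw [← pe_reverse (p1 ++ [w]), hp1]
      congr 1
      simp
    have hperm : p'.Perm p := by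
      rw [hp', hpw]
      have : (p1 ++ w :: a :: p2) = (p1 ++ [w]) ++ a :: p2 := by simp
      rw [this]
      exact (List.reverse_perm _).append_right _
    have hwa : s(a, w) ∈ L.bind el := by
      rw [hbind, hpe, Multiset.mem_add, Multiset.mem_add, Multiset.mem_cons]
      exact Or.inl (Or.inr (Or.inl Sym2.eq_swap))
    have hwX : w ∉ X := fun h7 => h.not_mem h7 hwa
    have hwx : w ≠ x := fun h7 => hwX (h7 ▸ hx)
    refine ⟨(p', false) ::ₘ L1, insert w (X.erase x), ?_, ?_, ?_, ?_, ?_⟩
    · rw [hL]; simp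
    · intro y hy
      rw [Multiset.mem_cons] at hy
      rcases hy with rfl | hy
      · exact ⟨hperm.nodup_iff.2 hpn.1, by rw [hperm.length_eq]; exact hpn.2, by simp⟩
      · exact hok1 y hy
    · have h8 : w ∉ X.erase x := fun h9 => hwX (Finset.mem_of_mem_erase h9)
      rw [← h.eq, hXe, hbind, Multiset.cons_bind, el_false, hpe, hpe',
        Finset.insert_val_of_notMem h8, Multiset.map_cons]
      simp only [Multiset.cons_add, Multiset.add_cons]
      rw [Multiset.cons_swap, Sym2.eq_swap (a := a) (b := w), Sym2.eq_swap (a := x) (b := a)]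
    · intro y hy
      rw [Finset.mem_insert, Finset.mem_erase] at hy
      rw [Finset.mem_insert, not_or]
      rcases hy with rfl | hy
      · exact ⟨hwx, hw⟩
      · exact ⟨hy.1, h.dis y hy.2⟩
    · apply hgood
      intro lv v hv hvW hvx hrev hgv
      -- the last vertex structure
      have hrev' : v :: lv = p2.reverse ++ a :: w :: p1.reverse := by
        rw [hrev, hpw]; simp
      have hnd : (v :: lv).Nodup := by rw [hrev]; exact List.nodup_reverse.2 hpn.1
      have hp'rev : p'.reverse = p2.reverse ++ a :: (p1 ++ [w]) := by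
        rw [hp']; simp
      obtain ⟨y, t, hyt⟩ : ∃ y t, p2.reverse = v :: t ∧ y = v := by
        cases h10 : p2.reverse with
        | nil => exact absurd (List.reverse_eq_nil_iff.1 h10) hp2
        | cons y t =>
          rw [h10] at hrev'
          exact ⟨y, t, by rw [(List.cons.inj hrev').1], (List.cons.inj hrev').1.symm⟩
      refine ⟨t ++ a :: (p1 ++ [w]), ?_, ?_⟩
      · right
        rw [Multiset.mem_cons]
        left
        rw [← List.cons_append, ← hyt.1, ← hp'rev, List.reverse_reverse]
      · rcases hgv with h11 | ⟨q, hq⟩ | ⟨q1, w', q2, hq, hq2, hw'⟩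
        · exfalso
          apply h11
          rw [hrev']
          simp
        · exfalso
          -- the last vertex of `p.reverse` is `x`
          have h12 : (v :: lv).getLast? = some x := by
            rw [hrev, hp]; simp
          rw [hq] at h12
          have : a = x := by simpa using h12
          exact hne x hxE this.symm
        · -- compare the two positions of `a`
          have h13 : (v :: lv) = (q1 ++ [w']) ++ a :: q2 := by rw [hq]; simp
          have h14 : p2.reverse = q1 ++ [w'] := by
            rw [hrev'] at h13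
            rw [hrev'] at hnd
            have h15 : a ∉ p2.reverse ∧ a ∉ w :: p1.reverse := by
              rw [List.nodup_append] at hnd
              refine ⟨fun h16 => hnd.2.2 a h16 a (by simp) rfl, ?_⟩
              exact (List.nodup_cons.1 hnd.2.1).1
            exact ((List.append_cons_inj_of_notMem h15.1 h15.2).1 h13).1
          right; right
          refine ⟨q1, w', p1 ++ [w], ?_, by simp, ?_⟩
          · rw [← List.cons_append, ← hyt.1, h14]; simp
          · rw [Finset.mem_insert, not_or]
            refine ⟨?_, hw'⟩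
            rintro rfl
            apply hxp
            rw [← pe_reverse, ← hrev, hq, pe_append_cons, Multiset.mem_add]
            right
            simp [Sym2.eq_swap]

/-- Iterating the step. -/
lemma main {E : Finset (Sym2 ℕ)} (hE : ∀ e ∈ E, ¬ e.IsDiag) {a : ℕ} (N : Finset ℕ)
    (hN : ∀ v, s(a, v) ∈ E ↔ v ∈ N) :
    ∀ (n : ℕ) (L : Multiset (List ℕ × Bool)) (X W : Finset ℕ), (N \ W).card = n →
      Inv E a L X W →
      ∃ L' : Multiset (List ℕ × Bool), Multiset.card L' = Multiset.card L ∧ Dec L' E.val := by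
  intro n
  induction n with
  | zero =>
    intro L X W hc h
    have hX : X = ∅ := by
      rw [Finset.eq_empty_iff_forall_notMem]
      intro x hx
      rw [Finset.card_eq_zero] at hc
      have : x ∈ N \ W := Finset.mem_sdiff.2 ⟨(hN x).1 (h.mem hx), h.dis x hx⟩
      rw [hc] at this
      exact absurd this (Finset.notMem_empty _)
    exact ⟨L, rfl, h.ok, by simpa [hX] using h.eq⟩
  | succ n ih =>
    intro L X W hc h
    rcases Finset.eq_empty_or_nonempty X with hX | ⟨x, hx⟩
    · exact ⟨L, rfl, h.ok, by simpa [hX] using h.eq⟩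
    · obtain ⟨L', X', hL', h'⟩ := step hE h hx
      have hmem : x ∈ N \ W := Finset.mem_sdiff.2 ⟨(hN x).1 (h.mem hx), h.dis x hx⟩
      have hc' : (N \ insert x W).card = n := by
        rw [Finset.sdiff_insert, Finset.card_erase_of_mem hmem, hc]
        rfl
      obtain ⟨L'', h1, h2⟩ := ih L' X' _ hc' h'
      exact ⟨L'', h1.trans hL', h2⟩

end Switch

/-- The switching lemma. -/
theorem stSwitch : StSwitch := by
  intro E a X L hE hok heq hend
  have hinj : Function.Injective (fun v : ℕ => s(a, v)) := fun x y h => Sym2.congr_right.1 h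
  refine Switch.main hE (E.preimage (fun v => s(a, v)) hinj.injOn)
    (fun v => by rw [Finset.mem_preimage]) _ L X ∅ rfl ⟨hok, heq, by simp, ?_⟩
  intro v hv _
  obtain ⟨l, hl⟩ := hend v hv
  have hne : v ≠ a := by
    intro hva
    apply hE _ hv
    rw [hva]
    exact Sym2.mk_isDiag_iff.2 rfl
  refine ⟨l, hl, ?_⟩
  by_cases ha : a ∈ v :: l
  · obtain ⟨q, r, hqr⟩ := List.append_of_mem ha
    rcases List.eq_nil_or_concat r with hr | ⟨r', b, hr⟩
    · right; left
      exact ⟨q, by rw [hqr, hr]⟩
    · right; right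
      rcases List.eq_nil_or_concat q with hq | ⟨q', w, hq⟩
      · exfalso
        rw [hq] at hqr
        exact hne (List.cons.inj hqr).1
      · refine ⟨q', w, r, ?_, ?_, by simp⟩
        · rw [hqr, hq]; simp
        · rw [hr]; simp
  · exact Or.inl ha

end Pool.Agent.Lib.MP_d51747_co.Paths
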